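import Pool.Agent.Lib.MP_3c7f5c_ag.Hom.EC1
import Pool.Agent.Lib.MP_3c7f5c_ag.Hom.EC2

/-!
# Euler characteristics of products with the plane and the punctured plane
-/

set_option autoImplicit false

open Set

namespace Pool.Agent.HZ

section
variable {Y : Type} [TopologicalSpace Y]

/-- a product with a star-shaped plane region has the homotopy type of the other factor -/
noncomputable def starEquiv (S : Set ℂ) (c : ℂ) (hc : c ∈ S) (hS : StarConvex ℝ c S) :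
    ContinuousMap.HomotopyEquiv Y {p : ℂ × Y // p.1 ∈ S} where
  toFun := ⟨fun y => ⟨(c, y), hc⟩, by fun_prop⟩
  invFun := ⟨fun p => p.1.2, by fun_prop⟩
  left_inv := by
    have : (ContinuousMap.comp (⟨fun p => p.1.2, by fun_prop⟩ : C({p : ℂ × Y // p.1 ∈ S}, Y))
      (⟨fun y => ⟨(c, y), hc⟩, by fun_prop⟩ : C(Y, {p : ℂ × Y // p.1 ∈ S}))) =
        ContinuousMap.id Y := by
      ext y; rfl
    rw [this]
  right_inv := by
    refine ⟨⟨⟨fun q => ⟨((1 - (q.1 : ℝ)) • c + (q.1 : ℝ) • q.2.1.1, q.2.1.2), ?_⟩, ?_⟩, ?_, ?_⟩⟩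
    · exact hS q.2.2 (by linarith [q.1.2.2]) q.1.2.1 (by ring)
    · fun_prop
    · intro p
      apply Subtype.ext
      simp
    · intro p
      apply Subtype.ext
      simp

theorem EC.star {n : ℤ} (S : Set ℂ) (c : ℂ) (hc : c ∈ S) (hS : StarConvex ℝ c S) (h : EC Y n) :
    EC {p : ℂ × Y // p.1 ∈ S} n :=
  EC.of_homotopyEquiv (starEquiv S c hc hS) h

theorem EC.prod_C {Y : Type} [TopologicalSpace Y] {n : ℤ} (h : EC Y n) : EC (ℂ × Y) n := by
  have h1 := EC.star (Y := Y) univ 0 (mem_univ _) (starConvex_univ _) h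
  refine EC.of_homeo ?_ h1
  exact
    { toFun := fun p => p.1
      invFun := fun p => ⟨p, mem_univ _⟩
      left_inv := fun _ => rfl
      right_inv := fun _ => rfl
      continuous_toFun := by fun_prop
      continuous_invFun := by fun_prop }

/-- nested subtypes -/
def nestHomeo (P Q R : ℂ → Prop) (hPR : ∀ z, R z ↔ (P z ∧ Q z)) :
    {p : ℂ × Y // R p.1} ≃ₜ ({x : {p : ℂ × Y // P p.1} | Q x.1.1} : Set {p : ℂ × Y // P p.1}) where
  toFun := fun p => ⟨⟨p.1, ((hPR _).1 p.2).1⟩, ((hPR _).1 p.2).2⟩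
  invFun := fun x => ⟨x.1.1, (hPR _).2 ⟨x.1.2, x.2⟩⟩
  left_inv := fun _ => rfl
  right_inv := fun _ => rfl
  continuous_toFun := by fun_prop
  continuous_invFun := by fun_prop

theorem starConvex_upper : StarConvex ℝ Complex.I {z : ℂ | 0 < z.im} := by
  intro y hy a b ha hb hab
  simp only [mem_ofPred_eq, Complex.add_im, Complex.smul_im, Complex.I_im, smul_eq_mul, mul_one] at hy ⊢
  rcases ha.lt_or_eq with h | h
  · have := mul_nonneg hb hy.le
    linarith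
  · have : b = 1 := by linarith
    rw [← h, this]; linarith

theorem starConvex_lower : StarConvex ℝ (-Complex.I) {z : ℂ | z.im < 0} := by
  intro y hy a b ha hb hab
  simp only [mem_ofPred_eq, Complex.add_im, Complex.smul_im, Complex.neg_im, Complex.I_im,
    smul_eq_mul, mul_neg, mul_one] at hy ⊢
  rcases ha.lt_or_eq with h | h
  · have := mul_nonneg hb (neg_nonneg.2 hy.le)
    linarith
  · have : b = 1 := by linarith
    rw [← h, this]; linarith

theorem starConvex_slit : StarConvex ℝ (1 : ℂ) {z : ℂ | 0 < z.re ∨ z.im ≠ 0} := by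
  have := Complex.starConvex_one_slitPlane
  exact this

theorem starConvex_slit_neg : StarConvex ℝ (-1 : ℂ) {z : ℂ | z.re < 0 ∨ z.im ≠ 0} := by
  intro y hy a b ha hb hab
  have h1 := starConvex_slit (y := -y) (by
    rcases hy with h | h
    · left; rw [Complex.neg_re]; linarith
    · right; rw [Complex.neg_im]; exact neg_ne_zero.2 h) ha hb hab
  have h2 : a • (-1 : ℂ) + b • y = -(a • (1 : ℂ) + b • (-y)) := by
    simp [smul_neg]; ring
  rw [h2]
  rcases h1 with h | h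
  · left; rw [Complex.neg_re]; linarith
  · right; rw [Complex.neg_im]; exact neg_ne_zero.2 h

theorem EC.im_ne_zero {n : ℤ} (h : EC Y n) : EC {p : ℂ × Y // p.1.im ≠ 0} (n + n) := by
  have hA : IsOpen {x : {p : ℂ × Y // p.1.im ≠ 0} | 0 < x.1.1.im} :=
    isOpen_lt continuous_const (by fun_prop)
  have hB : IsOpen {x : {p : ℂ × Y // p.1.im ≠ 0} | x.1.1.im < 0} :=
    isOpen_lt (by fun_prop) continuous_const
  have hAB : {x : {p : ℂ × Y // p.1.im ≠ 0} | 0 < x.1.1.im} ∪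
      {x : {p : ℂ × Y // p.1.im ≠ 0} | x.1.1.im < 0} = univ := by
    ext x
    simp only [mem_union, mem_ofPred_eq, mem_univ, iff_true]
    exact (lt_or_gt_of_ne x.2).symm
  have ha : EC {x : {p : ℂ × Y // p.1.im ≠ 0} | 0 < x.1.1.im} n := by
    refine EC.of_homeo (nestHomeo (fun z => z.im ≠ 0) (fun z => 0 < z.im) (fun z => 0 < z.im) ?_)
      (EC.star {z : ℂ | 0 < z.im} Complex.I (by simp) starConvex_upper h)
    intro z
    exact ⟨fun h => ⟨h.ne', h⟩, fun h => h.2⟩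
  have hb : EC {x : {p : ℂ × Y // p.1.im ≠ 0} | x.1.1.im < 0} n := by
    refine EC.of_homeo (nestHomeo (fun z => z.im ≠ 0) (fun z => z.im < 0) (fun z => z.im < 0) ?_)
      (EC.star {z : ℂ | z.im < 0} (-Complex.I) (by simp) starConvex_lower h)
    intro z
    exact ⟨fun h => ⟨h.ne, h⟩, fun h => h.2⟩
  have hc : EC ({x : {p : ℂ × Y // p.1.im ≠ 0} | 0 < x.1.1.im} ∩
      {x : {p : ℂ × Y // p.1.im ≠ 0} | x.1.1.im < 0} : Set {p : ℂ × Y // p.1.im ≠ 0}) 0 := by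
    have : IsEmpty ({x : {p : ℂ × Y // p.1.im ≠ 0} | 0 < x.1.1.im} ∩
      {x : {p : ℂ × Y // p.1.im ≠ 0} | x.1.1.im < 0} : Set {p : ℂ × Y // p.1.im ≠ 0}) :=
      ⟨fun x => lt_asymm (show 0 < x.1.1.1.im from x.2.1) x.2.2⟩
    exact EC.empty
  have := EC.mv hA hB hAB ha hb hc
  rwa [sub_zero] at this

theorem EC.prod_Cstar {Y : Type} [TopologicalSpace Y] {n : ℤ} (h : EC Y n) :
    EC {p : ℂ × Y // p.1 ≠ 0} 0 := by
  have hreim : ∀ z : ℂ, z ≠ 0 ↔ (z.re ≠ 0 ∨ z.im ≠ 0) := by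
    intro z
    rw [ne_eq, Complex.ext_iff, Complex.zero_re, Complex.zero_im]
    tauto
  have hre : Continuous (fun x : {p : ℂ × Y // p.1 ≠ 0} => x.1.1.re) := by fun_prop
  have him : Continuous (fun x : {p : ℂ × Y // p.1 ≠ 0} => x.1.1.im) := by fun_prop
  have hA : IsOpen {x : {p : ℂ × Y // p.1 ≠ 0} | 0 < x.1.1.re ∨ x.1.1.im ≠ 0} :=
    (isOpen_lt continuous_const hre).union (isOpen_ne_fun him continuous_const)
  have hB : IsOpen {x : {p : ℂ × Y // p.1 ≠ 0} | x.1.1.re < 0 ∨ x.1.1.im ≠ 0} :=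
    (isOpen_lt hre continuous_const).union (isOpen_ne_fun him continuous_const)
  have hAB : {x : {p : ℂ × Y // p.1 ≠ 0} | 0 < x.1.1.re ∨ x.1.1.im ≠ 0} ∪
      {x : {p : ℂ × Y // p.1 ≠ 0} | x.1.1.re < 0 ∨ x.1.1.im ≠ 0} = univ := by
    ext x
    simp only [mem_union, mem_ofPred_eq, mem_univ, iff_true]
    rcases (hreim _).1 x.2 with h | h
    · rcases lt_or_gt_of_ne h with h | h
      · exact Or.inr (Or.inl h)
      · exact Or.inl (Or.inl h)
    · exact Or.inl (Or.inr h)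
  have ha : EC {x : {p : ℂ × Y // p.1 ≠ 0} | 0 < x.1.1.re ∨ x.1.1.im ≠ 0} n := by
    refine EC.of_homeo (nestHomeo (fun z => z ≠ 0) (fun z => 0 < z.re ∨ z.im ≠ 0)
      (fun z => 0 < z.re ∨ z.im ≠ 0) ?_)
      (EC.star {z : ℂ | 0 < z.re ∨ z.im ≠ 0} 1 (by simp) starConvex_slit h)
    intro z
    refine ⟨fun h => ⟨(hreim z).2 (h.imp (fun h => h.ne') id), h⟩, fun h => h.2⟩
  have hb : EC {x : {p : ℂ × Y // p.1 ≠ 0} | x.1.1.re < 0 ∨ x.1.1.im ≠ 0} n := by
    refine EC.of_homeo (nestHomeo (fun z => z ≠ 0) (fun z => z.re < 0 ∨ z.im ≠ 0)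
      (fun z => z.re < 0 ∨ z.im ≠ 0) ?_)
      (EC.star {z : ℂ | z.re < 0 ∨ z.im ≠ 0} (-1) (by simp) starConvex_slit_neg h)
    intro z
    refine ⟨fun h => ⟨(hreim z).2 (h.imp (fun h => h.ne) id), h⟩, fun h => h.2⟩
  have hint : ({x : {p : ℂ × Y // p.1 ≠ 0} | 0 < x.1.1.re ∨ x.1.1.im ≠ 0} ∩
      {x : {p : ℂ × Y // p.1 ≠ 0} | x.1.1.re < 0 ∨ x.1.1.im ≠ 0}) =
      {x : {p : ℂ × Y // p.1 ≠ 0} | x.1.1.im ≠ 0} := by
    ext x
    simp only [mem_inter_iff, mem_ofPred_eq]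
    constructor
    · rintro ⟨h1 | h1, h2 | h2⟩
      · linarith
      · exact h2
      · exact h1
      · exact h1
    · intro h
      exact ⟨Or.inr h, Or.inr h⟩
  have hc : EC ({x : {p : ℂ × Y // p.1 ≠ 0} | 0 < x.1.1.re ∨ x.1.1.im ≠ 0} ∩
      {x : {p : ℂ × Y // p.1 ≠ 0} | x.1.1.re < 0 ∨ x.1.1.im ≠ 0} : Set {p : ℂ × Y // p.1 ≠ 0})
      (n + n) := by
    rw [hint]
    refine EC.of_homeo (nestHomeo (fun z => z ≠ 0) (fun z => z.im ≠ 0) (fun z => z.im ≠ 0) ?_)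
      (EC.im_ne_zero h)
    intro z
    exact ⟨fun h => ⟨(hreim z).2 (Or.inr h), h⟩, fun h => h.2⟩
  have := EC.mv hA hB hAB ha hb hc
  rwa [sub_self] at this

end

end Pool.Agent.HZ
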