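import Pool.Agent.Lib.MP_3c7f5c_ag.Eul.EcProd

/-!
# Slice additivity of the Euler characteristic (HZ-Slice)
-/

set_option autoImplicit false

open Set

namespace Pool.Agent.HZ

section
variable {B : Type} [MetricSpace B]

private noncomputable def slr (X : Set (ℂ × B)) (b : B) : ℝ :=
  (min 1 (Metric.infEDist ((0 : ℂ), b) Xᶜ)).toReal

private lemma slr_ne_top (X : Set (ℂ × B)) (b : B) :
    min 1 (Metric.infEDist ((0 : ℂ), b) Xᶜ) ≠ ⊤ :=
  ne_top_of_le_ne_top ENNReal.one_ne_top (min_le_left _ _)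

private lemma slr_cont (X : Set (ℂ × B)) : Continuous (slr X) := by
  unfold slr
  rw [continuous_iff_continuousAt]
  intro b
  have h1 : Continuous (fun b : B => min 1 (Metric.infEDist ((0 : ℂ), b) Xᶜ)) :=
    continuous_const.min (Metric.continuous_infEDist.comp (continuous_const.prodMk continuous_id))
  exact ContinuousAt.comp (f := fun b : B => min 1 (Metric.infEDist ((0 : ℂ), b) Xᶜ))
    (ENNReal.continuousAt_toReal (slr_ne_top X b)) h1.continuousAt

private lemma slr_pos {X : Set (ℂ × B)} (hX : IsOpen X) {b : B} (hb : ((0 : ℂ), b) ∈ X) :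
    0 < slr X b := by
  unfold slr
  apply ENNReal.toReal_pos _ (slr_ne_top X b)
  intro h0
  have h1 : Metric.infEDist ((0 : ℂ), b) Xᶜ = 0 := by
    rcases min_choice 1 (Metric.infEDist ((0 : ℂ), b) Xᶜ) with h | h
    · rw [h] at h0
      exact absurd h0 one_ne_zero
    · rwa [h] at h0
  rw [← Metric.mem_iff_infEDist_zero_of_closed hX.isClosed_compl] at h1
  exact h1 hb

private lemma slr_nonneg (X : Set (ℂ × B)) (b : B) : 0 ≤ slr X b := ENNReal.toReal_nonneg

private lemma slr_mem (X : Set (ℂ × B)) (a : ℂ) (b : B) (h : ‖a‖ < slr X b) : (a, b) ∈ X := by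
  by_contra hc
  have h1 : Metric.infEDist ((0 : ℂ), b) Xᶜ ≤ edist ((0 : ℂ), b) (a, b) :=
    Metric.infEDist_le_edist_of_mem hc
  have h2 : edist ((0 : ℂ), b) (a, b) = ENNReal.ofReal ‖a‖ := by
    rw [Prod.edist_eq]
    simp only [edist_self]
    rw [max_eq_left (by simp : (0 : ENNReal) ≤ edist (0 : ℂ) a), edist_dist, dist_comm,
      dist_zero_right]
  rw [h2] at h1
  have h3 : slr X b ≤ ‖a‖ := by
    unfold slr
    have h4 := ENNReal.toReal_mono ENNReal.ofReal_ne_top ((min_le_right 1 _).trans h1)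
    rwa [ENNReal.toReal_ofReal (norm_nonneg _)] at h4
  exact absurd h (not_lt.2 h3)

private lemma slr_zero_mem (X : Set (ℂ × B)) (a : ℂ) (b : B) (h : ‖a‖ < slr X b) :
    ((0 : ℂ), b) ∈ X := by
  apply slr_mem
  rw [norm_zero]
  exact lt_of_le_of_lt (norm_nonneg _) h

private lemma sl_norm (ρ : ℝ) (hρ : 0 < ρ) (a : ℂ) : ‖((ρ / (1 + ‖a‖) : ℝ) : ℂ) * a‖ < ρ := by
  have h1 : 0 < 1 + ‖a‖ := by positivity
  rw [norm_mul, Complex.norm_real, Real.norm_eq_abs, abs_of_pos (by positivity), div_mul_eq_mul_div,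
    div_lt_iff₀ h1]
  nlinarith [norm_nonneg a]

private lemma sl_left (ρ : ℝ) (hρ : 0 < ρ) (a : ℂ) :
    (((ρ - ‖((ρ / (1 + ‖a‖) : ℝ) : ℂ) * a‖)⁻¹ : ℝ) : ℂ) * (((ρ / (1 + ‖a‖) : ℝ) : ℂ) * a) = a := by
  have h1 : 0 < 1 + ‖a‖ := by positivity
  have h2 : ρ - ‖((ρ / (1 + ‖a‖) : ℝ) : ℂ) * a‖ = ρ / (1 + ‖a‖) := by
    rw [norm_mul, Complex.norm_real, Real.norm_eq_abs, abs_of_pos (by positivity)]
    field_simp
    ring
  rw [h2, ← mul_assoc, ← Complex.ofReal_mul, inv_mul_cancel₀ (by positivity), Complex.ofReal_one,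
    one_mul]

private lemma sl_right (ρ : ℝ) (w : ℂ) (hw : ‖w‖ < ρ) :
    ((ρ / (1 + ‖(((ρ - ‖w‖)⁻¹ : ℝ) : ℂ) * w‖) : ℝ) : ℂ) * ((((ρ - ‖w‖)⁻¹ : ℝ) : ℂ) * w) = w := by
  have h1 : 0 < ρ - ‖w‖ := by linarith only [hw]
  have hρ : 0 < ρ := lt_of_le_of_lt (norm_nonneg _) hw
  have h2 : ρ / (1 + ‖(((ρ - ‖w‖)⁻¹ : ℝ) : ℂ) * w‖) = ρ - ‖w‖ := by
    rw [norm_mul, Complex.norm_real, Real.norm_eq_abs, abs_of_pos (by positivity)]
    field_simp
    ring
  rw [h2, ← mul_assoc, ← Complex.ofReal_mul, mul_inv_cancel₀ h1.ne', Complex.ofReal_one, one_mul]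

variable (X : Set (ℂ × B))

/-- the part away from the slice -/
private def slA : Set X := {x | x.1.1 ≠ 0}

/-- the neighbourhood of the slice -/
private def slN : Set X := {x | ‖x.1.1‖ < slr X x.1.2}

private lemma slA_open : IsOpen (slA X) := by
  have h : Continuous (fun x : X => x.1.1) := continuous_fst.comp continuous_subtype_val
  exact isOpen_ne_fun h continuous_const

private lemma slN_open : IsOpen (slN X) := by
  have h : Continuous (fun x : X => ‖x.1.1‖) :=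
    (continuous_fst.comp continuous_subtype_val).norm
  have h2 : Continuous (fun x : X => slr X x.1.2) :=
    (slr_cont X).comp (continuous_snd.comp continuous_subtype_val)
  exact isOpen_lt h h2

private lemma sl_cover (hX : IsOpen X) : slA X ∪ slN X = univ := by
  apply eq_univ_of_forall
  rintro ⟨⟨a, b⟩, hx⟩
  by_cases ha : a = 0
  · right
    change ‖a‖ < slr X b
    rw [ha, norm_zero]
    apply slr_pos hX
    rw [← ha]
    exact hx
  · left
    exact ha

private noncomputable def slA_homeo : slA X ≃ₜ {p : ℂ × B // p ∈ X ∧ p.1 ≠ 0} where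
  toFun x := ⟨x.1.1, x.1.2, x.2⟩
  invFun p := ⟨⟨p.1, p.2.1⟩, p.2.2⟩
  left_inv _ := rfl
  right_inv _ := rfl
  continuous_toFun := by fun_prop
  continuous_invFun := by fun_prop

private lemma sl_cont1 (hX : IsOpen X) :
    Continuous (fun p : ℂ × {b : B // ((0 : ℂ), b) ∈ X} =>
      (((slr X p.2.1 / (1 + ‖p.1‖) : ℝ) : ℂ) * p.1, p.2.1)) := by
  have _ := hX
  have h1 : Continuous (fun p : ℂ × {b : B // ((0 : ℂ), b) ∈ X} => slr X p.2.1) :=
    (slr_cont X).comp (continuous_subtype_val.comp continuous_snd)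
  have h2 : Continuous (fun p : ℂ × {b : B // ((0 : ℂ), b) ∈ X} => slr X p.2.1 / (1 + ‖p.1‖)) :=
    h1.div (continuous_const.add continuous_fst.norm) (fun p => by positivity)
  exact ((Complex.continuous_ofReal.comp h2).mul continuous_fst).prodMk
    (continuous_subtype_val.comp continuous_snd)

private lemma sl_cont2 {Y : Type} [TopologicalSpace Y] (f : Y → ℂ × B) (hf : Continuous f)
    (hm : ∀ y, ‖(f y).1‖ < slr X (f y).2) :
    Continuous (fun y => (((slr X (f y).2 - ‖(f y).1‖)⁻¹ : ℝ) : ℂ) * (f y).1) := by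
  have h1 : Continuous (fun y => slr X (f y).2) := (slr_cont X).comp hf.snd
  have h2 : Continuous (fun y => (slr X (f y).2 - ‖(f y).1‖)⁻¹) := by
    apply (h1.sub hf.fst.norm).inv₀
    intro y
    have := hm y
    exact (sub_pos.2 this).ne'
  exact (Complex.continuous_ofReal.comp h2).mul hf.fst

private noncomputable def slN_homeo (hX : IsOpen X) :
    (ℂ × {b : B // ((0 : ℂ), b) ∈ X}) ≃ₜ slN X where
  toFun p := ⟨⟨(((slr X p.2.1 / (1 + ‖p.1‖) : ℝ) : ℂ) * p.1, p.2.1),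
    slr_mem X _ _ (sl_norm _ (slr_pos hX p.2.2) _)⟩, sl_norm _ (slr_pos hX p.2.2) _⟩
  invFun x := ((((slr X x.1.1.2 - ‖x.1.1.1‖)⁻¹ : ℝ) : ℂ) * x.1.1.1,
    ⟨x.1.1.2, slr_zero_mem X _ _ x.2⟩)
  left_inv p := by
    refine Prod.ext ?_ rfl
    exact sl_left _ (slr_pos hX p.2.2) _
  right_inv x := by
    apply Subtype.ext
    apply Subtype.ext
    refine Prod.ext ?_ rfl
    exact sl_right _ _ x.2
  continuous_toFun := ((sl_cont1 X hX).subtype_mk _).subtype_mk _
  continuous_invFun := by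
    refine Continuous.prodMk ?_ ?_
    · exact sl_cont2 X (fun x : slN X => x.1.1)
        (continuous_subtype_val.comp continuous_subtype_val) (fun x => x.2)
    · exact (continuous_snd.comp (continuous_subtype_val.comp continuous_subtype_val)).subtype_mk _

private lemma sl_ne (hX : IsOpen X) (p : ℂ × {b : B // ((0 : ℂ), b) ∈ X}) :
    ((slN_homeo X hX p).1.1.1 ≠ 0) ↔ p.1 ≠ 0 := by
  change ((slr X p.2.1 / (1 + ‖p.1‖) : ℝ) : ℂ) * p.1 ≠ 0 ↔ p.1 ≠ 0
  have h1 : ((slr X p.2.1 / (1 + ‖p.1‖) : ℝ) : ℂ) ≠ 0 := by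
    rw [Ne, Complex.ofReal_eq_zero]
    have h2 := slr_pos hX p.2.2
    positivity
  constructor
  · intro h h'
    apply h
    rw [h', mul_zero]
  · intro h
    exact mul_ne_zero h1 h

private noncomputable def slI_homeo1 (hX : IsOpen X) :
    {p : ℂ × {b : B // ((0 : ℂ), b) ∈ X} // p.1 ≠ 0} ≃ₜ {x : slN X // x.1.1.1 ≠ 0} :=
  (slN_homeo X hX).subtype (fun p => (sl_ne X hX p).symm)

private noncomputable def slI_homeo2 : {x : slN X // x.1.1.1 ≠ 0} ≃ₜ (slA X ∩ slN X : Set X) where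
  toFun x := ⟨x.1.1, x.2, x.1.2⟩
  invFun x := ⟨⟨x.1, x.2.2⟩, x.2.1⟩
  left_inv _ := rfl
  right_inv _ := rfl
  continuous_toFun := by fun_prop
  continuous_invFun := by fun_prop

/-- slice additivity for open subsets of `ℂ × B` -/
theorem EC.slice (X : Set (ℂ × B)) (hX : IsOpen X) {n n₀ : ℤ}
    (h1 : EC {p : ℂ × B // p ∈ X ∧ p.1 ≠ 0} n) (h0 : EC {b : B // ((0 : ℂ), b) ∈ X} n₀) :
    EC X (n + n₀) := by
  have hA : EC (slA X) n := EC.of_homeo (slA_homeo X).symm h1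
  have hN : EC (slN X) n₀ := EC.of_homeo (slN_homeo X hX) (EC.prod_C h0)
  have hI : EC (slA X ∩ slN X : Set X) 0 :=
    EC.of_homeo ((slI_homeo1 X hX).trans (slI_homeo2 X)) (EC.prod_Cstar h0)
  have h := EC.mv (slA_open X) (slN_open X) (sl_cover X hX) hA hN hI
  rwa [sub_zero] at h

theorem EC.slice' (X : Set (ℂ × B)) (hX : IsOpen X) {n n₀ : ℤ}
    (h : EC X n) (h0 : EC {b : B // ((0 : ℂ), b) ∈ X} n₀) :
    EC {p : ℂ × B // p ∈ X ∧ p.1 ≠ 0} (n - n₀) := by
  have hN : EC (slN X) n₀ := EC.of_homeo (slN_homeo X hX) (EC.prod_C h0)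
  have hI : EC (slA X ∩ slN X : Set X) 0 :=
    EC.of_homeo ((slI_homeo1 X hX).trans (slI_homeo2 X)) (EC.prod_Cstar h0)
  have h' := EC.mv_left (slA_open X) (slN_open X) (sl_cover X hX) h hN hI
  rw [add_zero] at h'
  exact EC.of_homeo (slA_homeo X) h'

end

end Pool.Agent.HZ
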