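import Pool.Agent.Lib.MP_3c7f5c_ag.Hom.EC2
import Pool.Agent.Lib.MP_3c7f5c_ag.Eul.EcProd
import Pool.Agent.Lib.MP_3c7f5c_ag.Eul.Slice

/-! HZ-EcBasic: Euler characteristics of punctured planes. -/

open Set
namespace Pool.Agent.HZ

/-- a subtype by a predicate which always holds -/
private noncomputable def ecTriv {B : Type} [TopologicalSpace B] (q : B → Prop) (h : ∀ b, q b) :
    B ≃ₜ {b : B // q b} where
  toFun b := ⟨b, h b⟩
  invFun b := b.1
  left_inv _ := rfl
  right_inv _ := rfl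
  continuous_toFun := continuous_id.subtype_mk _
  continuous_invFun := continuous_subtype_val

theorem EC.prod_C01 {Y : Type} [MetricSpace Y] {n : ℤ} (h : EC Y n) :
    EC {p : ℂ × Y // p.1 ≠ 0 ∧ p.1 ≠ 1} (-n) := by
  let e : ℂ × Y ≃ₜ ℂ × Y := (Homeomorph.addRight (1 : ℂ)).prodCongr (Homeomorph.refl Y)
  have he : ∀ p : ℂ × Y, (e p).1 = p.1 + 1 := fun p => rfl
  let X : Set (ℂ × Y) := {p | p.1 ≠ -1}
  have hX : IsOpen X := isOpen_ne_fun continuous_fst continuous_const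
  have h1 : EC X 0 := by
    refine EC.of_homeo (Homeomorph.subtype (p := fun p : ℂ × Y => p ∈ X)
      (q := fun p : ℂ × Y => p.1 ≠ 0) e ?_).symm (EC.prod_Cstar h)
    intro p
    rw [he]
    show p.1 ≠ -1 ↔ _
    rw [ne_eq, ne_eq, eq_neg_iff_add_eq_zero]
  have h2 : EC {b : Y // ((0 : ℂ), b) ∈ X} n := by
    refine EC.of_homeo (ecTriv (fun b : Y => ((0 : ℂ), b) ∈ X) fun b => ?_) h
    show (0 : ℂ) ≠ -1
    norm_num
  have h3 := EC.slice' X hX h1 h2
  rw [zero_sub] at h3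
  refine EC.of_homeo (Homeomorph.subtype (p := fun p : ℂ × Y => p ∈ X ∧ p.1 ≠ 0)
    (q := fun p : ℂ × Y => p.1 ≠ 0 ∧ p.1 ≠ 1) e ?_) h3
  intro p
  rw [he]
  have e1 : p ∈ X ↔ p.1 + 1 ≠ 0 := by
    show p.1 ≠ -1 ↔ _
    rw [ne_eq, ne_eq, eq_neg_iff_add_eq_zero]
  have e2 : p.1 ≠ 0 ↔ p.1 + 1 ≠ 1 := by
    rw [ne_eq, ne_eq, add_eq_right]
  rw [e1, e2]

theorem EC.punctured (S : Finset ℂ) : EC {z : ℂ // z ∉ S} (1 - S.card) := by
  classical
  induction S using Finset.induction_on with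
  | empty =>
    have h1 : EC ℂ 1 := EC.contractible
    have h2 := EC.of_homeo (ecTriv (fun z : ℂ => z ∉ (∅ : Finset ℂ)) fun z => by simp) h1
    simpa using h2
  | insert s S hs ih =>
    let e : ℂ × Unit ≃ₜ ℂ := (Homeomorph.prodPUnit ℂ).trans (Homeomorph.addRight s)
    have he : ∀ p : ℂ × Unit, e p = p.1 + s := fun p => rfl
    let X : Set (ℂ × Unit) := {p | p.1 + s ∉ S}
    have hX : IsOpen X := by
      have h1 : IsOpen ((S : Set ℂ)ᶜ) := S.finite_toSet.isClosed.isOpen_compl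
      exact h1.preimage (by fun_prop : Continuous fun p : ℂ × Unit => p.1 + s)
    have h1 : EC X (1 - S.card) := by
      refine EC.of_homeo (Homeomorph.subtype (p := fun p : ℂ × Unit => p ∈ X)
        (q := fun z : ℂ => z ∉ S) e ?_).symm ih
      intro p
      rfl
    have h2 : EC {b : Unit // ((0 : ℂ), b) ∈ X} 1 := by
      refine EC.of_homeo (ecTriv (fun b : Unit => ((0 : ℂ), b) ∈ X) fun b => ?_) EC.contractible
      show (0 : ℂ) + s ∉ S
      rw [zero_add]
      exact hs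
    have h3 := EC.slice' X hX h1 h2
    have h4 : (1 : ℤ) - (insert s S).card = 1 - S.card - 1 := by
      rw [Finset.card_insert_of_notMem hs]
      push_cast
      ring
    rw [h4]
    refine EC.of_homeo (Homeomorph.subtype (p := fun p : ℂ × Unit => p ∈ X ∧ p.1 ≠ 0)
      (q := fun z : ℂ => z ∉ insert s S) e ?_) h3
    intro p
    rw [he, Finset.mem_insert, not_or, add_eq_right]
    exact and_comm

end Pool.Agent.HZ
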