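import Pool.Agent.Lib.MP_3c7f5c_ag.Eul.EcMT

/-!
# Euler characteristics of the model sets
-/

set_option autoImplicit false

open Set

namespace Pool.Agent.HZ

/-- homeomorphisms between subtypes, given by maps of the ambient spaces -/
private noncomputable def hof {A B : Type} [TopologicalSpace A] [TopologicalSpace B] {P : A → Prop}
    {Q : B → Prop} (f : A → B) (g : B → A) (hf : ContinuousOn f {x | P x})
    (hg : ContinuousOn g {y | Q y}) (h1 : ∀ x, P x → Q (f x)) (h2 : ∀ y, Q y → P (g y))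
    (h3 : ∀ x, P x → g (f x) = x) (h4 : ∀ y, Q y → f (g y) = y) : {x // P x} ≃ₜ {y // Q y} where
  toFun x := ⟨f x, h1 _ x.2⟩
  invFun y := ⟨g y, h2 _ y.2⟩
  left_inv x := Subtype.ext (h3 _ x.2)
  right_inv y := Subtype.ext (h4 _ y.2)
  continuous_toFun := (hf.comp_continuous continuous_subtype_val fun x => x.2).subtype_mk _
  continuous_invFun := (hg.comp_continuous continuous_subtype_val fun x => x.2).subtype_mk _

private theorem ec_of {A B : Type} [TopologicalSpace A] [TopologicalSpace B] {P : A → Prop}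
    {Q : B → Prop} {n : ℤ} (h : EC {y // Q y} n) (f : A → B) (g : B → A)
    (hf : ContinuousOn f {x | P x})
    (hg : ContinuousOn g {y | Q y}) (h1 : ∀ x, P x → Q (f x)) (h2 : ∀ y, Q y → P (g y))
    (h3 : ∀ x, P x → g (f x) = x) (h4 : ∀ y, Q y → f (g y) = y) : EC {x // P x} n :=
  EC.of_homeo (hof f g hf hg h1 h2 h3 h4).symm h

section
variable {C : Type} [MetricSpace C] {Q : C → Prop} {n : ℤ}

private theorem pC01 (h : EC {r // Q r} n) :
    EC {x : ℂ × C // (x.1 ≠ 0 ∧ x.1 ≠ 1) ∧ Q x.2} (-n) := by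
  refine EC.of_homeo ?_ (EC.prod_C01 h)
  exact
    { toFun := fun p => ⟨(p.1.1, p.1.2.1), p.2, p.1.2.2⟩
      invFun := fun x => ⟨(x.1.1, ⟨x.1.2, x.2.2⟩), x.2.1⟩
      left_inv := fun _ => rfl
      right_inv := fun _ => rfl
      continuous_toFun := by fun_prop
      continuous_invFun := by fun_prop }

private theorem pCstar (h : EC {r // Q r} n) : EC {x : ℂ × C // x.1 ≠ 0 ∧ Q x.2} 0 := by
  refine EC.of_homeo ?_ (EC.prod_Cstar h)
  exact
    { toFun := fun p => ⟨(p.1.1, p.1.2.1), p.2, p.1.2.2⟩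
      invFun := fun x => ⟨(x.1.1, ⟨x.1.2, x.2.2⟩), x.2.1⟩
      left_inv := fun _ => rfl
      right_inv := fun _ => rfl
      continuous_toFun := by fun_prop
      continuous_invFun := by fun_prop }

private theorem pC (h : EC {r // Q r} n) : EC {x : ℂ × C // Q x.2} n := by
  refine EC.of_homeo ?_ (EC.prod_C h)
  exact
    { toFun := fun p => ⟨(p.1, p.2.1), p.2.2⟩
      invFun := fun x => (x.1.1, ⟨x.1.2, x.2⟩)
      left_inv := fun _ => rfl
      right_inv := fun _ => rfl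
      continuous_toFun := by fun_prop
      continuous_invFun := by fun_prop }
end

private theorem p1 (c : ℂ) : EC {z : ℂ // z ≠ c} 0 := by
  have h := EC.punctured {c}
  rw [Finset.card_singleton] at h
  refine EC.of_homeo ?_ h
  exact
    { toFun := fun z => ⟨z.1, fun h => z.2 (Finset.mem_singleton.mpr h)⟩
      invFun := fun z => ⟨z.1, fun h => z.2 (Finset.mem_singleton.mp h)⟩
      left_inv := fun _ => rfl
      right_inv := fun _ => rfl
      continuous_toFun := by fun_prop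
      continuous_invFun := by fun_prop }

private theorem p2 (c d : ℂ) (hcd : c ≠ d) : EC {z : ℂ // z ≠ c ∧ z ≠ d} (-1) := by
  classical
  have h := EC.punctured {c, d}
  rw [Finset.card_pair hcd] at h
  refine EC.of_homeo ?_ h
  exact
    { toFun := fun z => ⟨z.1, by
        have := z.2
        simp only [Finset.mem_insert, Finset.mem_singleton, not_or] at this
        exact this⟩
      invFun := fun z => ⟨z.1, by
        have := z.2
        simp only [Finset.mem_insert, Finset.mem_singleton, not_or]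
        exact this⟩
      left_inv := fun _ => rfl
      right_inv := fun _ => rfl
      continuous_toFun := by fun_prop
      continuous_invFun := by fun_prop }


/-! ### two dimensional pieces -/

private theorem ecA : EC {x : ℂ × ℂ // x.1 ≠ 0 ∧ x.2 ≠ 0 ∧ x.1 * x.2 ≠ 1} 0 := by
  have h := pC01 (p1 0)
  rw [neg_zero] at h
  refine ec_of h (fun x => (x.1 * x.2, x.2)) (fun y => (y.1 / y.2, y.2)) ?_ ?_ ?_ ?_ ?_ ?_
  · fun_prop
  · refine ContinuousOn.prodMk (ContinuousOn.div (by fun_prop) (by fun_prop) fun y hy => hy.2) (by fun_prop)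
  · rintro x ⟨h1, h2, h3⟩
    exact ⟨⟨mul_ne_zero h1 h2, h3⟩, h2⟩
  · rintro y ⟨⟨h1, h2⟩, h3⟩
    refine ⟨div_ne_zero h1 h3, h3, ?_⟩
    rw [div_mul_cancel₀ _ h3]
    exact h2
  · rintro x ⟨h1, h2, h3⟩
    refine Prod.ext ?_ rfl
    exact mul_div_cancel_right₀ _ h2
  · rintro y ⟨⟨h1, h2⟩, h3⟩
    refine Prod.ext ?_ rfl
    exact div_mul_cancel₀ _ h3

private theorem ecB : EC {x : ℂ × ℂ // x.2 ≠ 0 ∧ x.1 * x.2 ≠ 1} 0 := by
  have h := pCstar (p1 1)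
  refine ec_of h (fun x => (x.2, x.1 * x.2)) (fun y => (y.2 / y.1, y.1)) ?_ ?_ ?_ ?_ ?_ ?_
  · fun_prop
  · refine ContinuousOn.prodMk (ContinuousOn.div (by fun_prop) (by fun_prop) fun y hy => hy.1) (by fun_prop)
  · rintro x ⟨h2, h3⟩
    exact ⟨h2, h3⟩
  · rintro y ⟨h1, h3⟩
    refine ⟨h1, ?_⟩
    change y.2 / y.1 * y.1 ≠ 1
    rw [div_mul_cancel₀ _ h1]
    exact h3
  · rintro x ⟨h2, h3⟩
    refine Prod.ext ?_ rfl
    exact mul_div_cancel_right₀ _ h2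
  · rintro y ⟨h1, h3⟩
    refine Prod.ext rfl ?_
    exact div_mul_cancel₀ _ h1

private theorem ecC : EC {x : ℂ × ℂ // x.1 ≠ 0 ∧ x.2 ≠ 0 ∧ x.1 ^ 2 * x.2 ≠ 1} 0 := by
  have h := pC01 (p1 0)
  rw [neg_zero] at h
  refine ec_of h (fun x => (x.1 ^ 2 * x.2, x.1)) (fun y => (y.2, y.1 / y.2 ^ 2)) ?_ ?_ ?_ ?_ ?_ ?_
  · fun_prop
  · refine ContinuousOn.prodMk (by fun_prop) (ContinuousOn.div (by fun_prop) (by fun_prop) fun y hy =>
      pow_ne_zero _ hy.2)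
  · rintro x ⟨h1, h2, h3⟩
    exact ⟨⟨mul_ne_zero (pow_ne_zero _ h1) h2, h3⟩, h1⟩
  · rintro y ⟨⟨h1, h2⟩, h3⟩
    refine ⟨h3, div_ne_zero h1 (pow_ne_zero _ h3), ?_⟩
    change y.2 ^ 2 * (y.1 / y.2 ^ 2) ≠ 1
    rw [mul_div_cancel₀ _ (pow_ne_zero _ h3)]
    exact h2
  · rintro x ⟨h1, h2, h3⟩
    refine Prod.ext rfl ?_
    change x.1 ^ 2 * x.2 / x.1 ^ 2 = x.2
    rw [mul_div_cancel_left₀ _ (pow_ne_zero _ h1)]
  · rintro y ⟨⟨h1, h2⟩, h3⟩
    refine Prod.ext ?_ rfl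
    change y.2 ^ 2 * (y.1 / y.2 ^ 2) = y.1
    rw [mul_div_cancel₀ _ (pow_ne_zero _ h3)]

private theorem ecD : EC {x : ℂ × ℂ // x.2 ≠ 0 ∧ x.1 ≠ 1 ∧ x.1 + x.2 ≠ 0} 1 := by
  set X : Set (ℂ × ℂ) := {t | t.2 ≠ 0 ∧ t.1 - t.2 ≠ 1} with hX
  have hXo : IsOpen X :=
    (isOpen_ne_fun (by fun_prop) (by fun_prop)).and (isOpen_ne_fun (by fun_prop) (by fun_prop))
  have h1 : EC X 0 := by
    have h := pCstar (p1 1)
    refine ec_of h (fun t => (t.2, t.1 - t.2)) (fun y => (y.1 + y.2, y.1)) (by fun_prop)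
      (by fun_prop) ?_ ?_ ?_ ?_
    · rintro t ⟨h1, h2⟩
      exact ⟨h1, h2⟩
    · rintro y ⟨h1, h2⟩
      refine ⟨h1, ?_⟩
      change y.1 + y.2 - y.1 ≠ 1
      rw [add_sub_cancel_left]
      exact h2
    · rintro t _
      refine Prod.ext ?_ rfl
      change t.2 + (t.1 - t.2) = t.1
      ring
    · rintro y _
      refine Prod.ext rfl ?_
      change y.1 + y.2 - y.1 = y.2
      ring
  have h0 : EC {b : ℂ // ((0 : ℂ), b) ∈ X} (-1) := by
    refine ec_of (p2 0 (-1) (by norm_num)) (fun x => x) (fun x => x) (by fun_prop) (by fun_prop)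
      ?_ ?_ (fun _ _ => rfl) fun _ _ => rfl
    · rintro x ⟨h1, h2⟩
      refine ⟨h1, ?_⟩
      rintro rfl
      apply h2
      norm_num
    · rintro x ⟨h1, h2⟩
      refine ⟨h1, ?_⟩
      intro h
      apply h2
      have h' : (0 : ℂ) - x = 1 := h
      linear_combination -h'
  have h := EC.slice' X hXo h1 h0
  refine ec_of h (fun x => (x.1 + x.2, x.2)) (fun t => (t.1 - t.2, t.2)) (by fun_prop) (by fun_prop)
    ?_ ?_ ?_ ?_
  · rintro x ⟨h1, h2, h3⟩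
    refine ⟨⟨h1, ?_⟩, h3⟩
    change x.1 + x.2 - x.2 ≠ 1
    rw [add_sub_cancel_right]
    exact h2
  · rintro t ⟨⟨h1, h2⟩, h3⟩
    refine ⟨h1, h2, ?_⟩
    change t.1 - t.2 + t.2 ≠ 0
    rw [sub_add_cancel]
    exact h3
  · rintro x _
    refine Prod.ext ?_ rfl
    change x.1 + x.2 - x.2 = x.1
    ring
  · rintro t _
    refine Prod.ext ?_ rfl
    change t.1 - t.2 + t.2 = t.1
    ring

/-! ### the model sets -/

theorem EC_MS1' : EC {p : ℂ × ℂ × ℂ // p ∈ MS1 ∧ p.2.1 ≠ 0} (-2) := by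
  set X : Set (ℂ × ℂ × ℂ) := {p | p ∈ MS1 ∧ p.2.1 ≠ 0} with hX
  have hXo : IsOpen X :=
    ((isOpen_ne_fun (by fun_prop) (by fun_prop)).and
      ((isOpen_ne_fun (by fun_prop) (by fun_prop)).and
        ((isOpen_ne_fun (by fun_prop) (by fun_prop)).and
          (isOpen_ne_fun (by fun_prop) (by fun_prop))))).and
      (isOpen_ne_fun (by fun_prop) (by fun_prop))
  have h0 : EC {b : ℂ × ℂ // ((0 : ℂ), b) ∈ X} 0 := by
    refine ec_of ecA (fun x => x) (fun x => x) (by fun_prop) (by fun_prop)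
      ?_ ?_ (fun _ _ => rfl) fun _ _ => rfl
    · rintro x ⟨⟨h1, h2, h3, h4⟩, h5⟩
      exact ⟨h5, h1, h3⟩
    · rintro x ⟨h1, h2, h3⟩
      refine ⟨⟨h2, ?_, h3, ?_⟩, h1⟩
      · change (0 : ℂ) * x.2 ≠ 1
        rw [zero_mul]
        exact zero_ne_one
      · change (0 : ℂ) * x.1 + 1 ≠ 0
        rw [zero_mul, zero_add]
        exact one_ne_zero
  have h1 : EC {p : ℂ × ℂ × ℂ // p ∈ X ∧ p.1 ≠ 0} (-2) := by
    refine ec_of EC_MT (fun p => (p.1 * p.2.2, p.2.1 * p.2.2, p.2.2))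
      (fun a => (a.1 / a.2.2, a.2.1 / a.2.2, a.2.2)) (by fun_prop) ?_ ?_ ?_ ?_ ?_
    · refine ContinuousOn.prodMk (ContinuousOn.div (by fun_prop) (by fun_prop) ?_)
        (ContinuousOn.prodMk (ContinuousOn.div (by fun_prop) (by fun_prop) ?_) (by fun_prop))
      · rintro y ⟨_, _, _, _, h, _⟩
        exact h
      · rintro y ⟨_, _, _, _, h, _⟩
        exact h
    · rintro p ⟨⟨⟨h1, h2, h3, h4⟩, h5⟩, h6⟩
      refine ⟨mul_ne_zero h6 h1, h2, mul_ne_zero h5 h1, h3, h1, ?_⟩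
      change p.1 * p.2.2 * (p.2.1 * p.2.2) + p.2.2 ^ 2 ≠ 0
      have : p.1 * p.2.2 * (p.2.1 * p.2.2) + p.2.2 ^ 2 = p.2.2 ^ 2 * (p.1 * p.2.1 + 1) := by ring
      rw [this]
      exact mul_ne_zero (pow_ne_zero _ h1) h4
    · rintro a ⟨h1, h2, h3, h4, h5, h6⟩
      refine ⟨⟨⟨h5, ?_, ?_, ?_⟩, div_ne_zero h3 h5⟩, div_ne_zero h1 h5⟩
      · change a.1 / a.2.2 * a.2.2 ≠ 1
        rw [div_mul_cancel₀ _ h5]
        exact h2
      · change a.2.1 / a.2.2 * a.2.2 ≠ 1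
        rw [div_mul_cancel₀ _ h5]
        exact h4
      · change a.1 / a.2.2 * (a.2.1 / a.2.2) + 1 ≠ 0
        have : a.1 / a.2.2 * (a.2.1 / a.2.2) + 1 = (a.1 * a.2.1 + a.2.2 ^ 2) / a.2.2 ^ 2 := by
          field_simp
        rw [this]
        exact div_ne_zero h6 (pow_ne_zero _ h5)
    · rintro p ⟨⟨⟨h1, h2, h3, h4⟩, h5⟩, h6⟩
      refine Prod.ext (mul_div_cancel_right₀ _ h1) (Prod.ext (mul_div_cancel_right₀ _ h1) rfl)
    · rintro a ⟨h1, h2, h3, h4, h5, h6⟩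
      refine Prod.ext (div_mul_cancel₀ _ h5) (Prod.ext (div_mul_cancel₀ _ h5) rfl)
  have h := EC.slice X hXo h1 h0
  rw [add_zero] at h
  exact h

theorem EC_MS1 : EC MS1 (-2) := by
  set X : Set (ℂ × ℂ × ℂ) := {y | (y.2.1, y.1, y.2.2) ∈ MS1} with hX
  have hXo : IsOpen X :=
    (isOpen_ne_fun (by fun_prop) (by fun_prop)).and
      ((isOpen_ne_fun (by fun_prop) (by fun_prop)).and
        ((isOpen_ne_fun (by fun_prop) (by fun_prop)).and
          (isOpen_ne_fun (by fun_prop) (by fun_prop))))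
  have h0 : EC {b : ℂ × ℂ // ((0 : ℂ), b) ∈ X} 0 := by
    refine ec_of ecB (fun x => x) (fun x => x) (by fun_prop) (by fun_prop)
      ?_ ?_ (fun _ _ => rfl) fun _ _ => rfl
    · rintro x ⟨h1, h2, h3, h4⟩
      exact ⟨h1, h2⟩
    · rintro x ⟨h1, h2⟩
      refine ⟨h1, h2, ?_, ?_⟩
      · change (0 : ℂ) * x.2 ≠ 1
        rw [zero_mul]
        exact zero_ne_one
      · change x.1 * (0 : ℂ) + 1 ≠ 0
        rw [mul_zero, zero_add]
        exact one_ne_zero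
  have h1 : EC {p : ℂ × ℂ × ℂ // p ∈ X ∧ p.1 ≠ 0} (-2) := by
    refine ec_of EC_MS1' (fun y => (y.2.1, y.1, y.2.2)) (fun y => (y.2.1, y.1, y.2.2)) (by fun_prop)
      (by fun_prop) ?_ ?_ (fun _ _ => rfl) fun _ _ => rfl
    · rintro x ⟨h1, h2⟩
      exact ⟨h1, h2⟩
    · rintro x ⟨h1, h2⟩
      exact ⟨h1, h2⟩
  have h := EC.slice X hXo h1 h0
  rw [add_zero] at h
  exact ec_of h (fun y => (y.2.1, y.1, y.2.2)) (fun y => (y.2.1, y.1, y.2.2)) (by fun_prop)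
      (by fun_prop) (fun _ h => h) (fun _ h => h) (fun _ _ => rfl) fun _ _ => rfl

theorem EC_MS2' : EC {p : ℂ × ℂ × ℂ // p ∈ MS2 ∧ p.2.1 ≠ 0} (-2) := by
  set X : Set (ℂ × ℂ × ℂ) := {p | p ∈ MS2 ∧ p.2.1 ≠ 0} with hX
  have hXo : IsOpen X :=
    ((isOpen_ne_fun (by fun_prop) (by fun_prop)).and
      ((isOpen_ne_fun (by fun_prop) (by fun_prop)).and
        ((isOpen_ne_fun (by fun_prop) (by fun_prop)).and
          (isOpen_ne_fun (by fun_prop) (by fun_prop))))).and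
      (isOpen_ne_fun (by fun_prop) (by fun_prop))
  have h0 : EC {b : ℂ × ℂ // ((0 : ℂ), b) ∈ X} 0 := by
    refine ec_of ecC (fun x => x) (fun x => x) (by fun_prop) (by fun_prop)
      ?_ ?_ (fun _ _ => rfl) fun _ _ => rfl
    · rintro x ⟨⟨h1, h2, h3, h4⟩, h5⟩
      exact ⟨h5, h1, h3⟩
    · rintro x ⟨h1, h2, h3⟩
      refine ⟨⟨h2, zero_ne_one, h3, ?_⟩, h1⟩
      change (0 : ℂ) + x.2 ≠ 0
      rw [zero_add]
      exact h2
  have h1 : EC {p : ℂ × ℂ × ℂ // p ∈ X ∧ p.1 ≠ 0} (-2) := by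
    refine ec_of EC_MT (fun p => (p.1, 1 / (p.2.1 ^ 2 * p.2.2), 1 / p.2.1))
      (fun a => (a.1, 1 / a.2.2, a.2.2 ^ 2 / a.2.1)) ?_ ?_ ?_ ?_ ?_ ?_
    · refine ContinuousOn.prodMk (by fun_prop)
        (ContinuousOn.prodMk (ContinuousOn.div (by fun_prop) (by fun_prop) ?_)
          (ContinuousOn.div (by fun_prop) (by fun_prop) ?_))
      · rintro p ⟨⟨⟨h1, h2, h3, h4⟩, h5⟩, h6⟩
        exact mul_ne_zero (pow_ne_zero _ h5) h1
      · rintro p ⟨⟨⟨h1, h2, h3, h4⟩, h5⟩, h6⟩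
        exact h5
    · refine ContinuousOn.prodMk (by fun_prop)
        (ContinuousOn.prodMk (ContinuousOn.div (by fun_prop) (by fun_prop) ?_)
          (ContinuousOn.div (by fun_prop) (by fun_prop) ?_))
      · rintro a ⟨h1, h2, h3, h4, h5, h6⟩
        exact h5
      · rintro a ⟨h1, h2, h3, h4, h5, h6⟩
        exact h3
    · rintro p ⟨⟨⟨h1, h2, h3, h4⟩, h5⟩, h6⟩
      have h7 : p.2.1 ^ 2 * p.2.2 ≠ 0 := mul_ne_zero (pow_ne_zero _ h5) h1
      refine ⟨h6, h2, one_div_ne_zero h7, ?_, one_div_ne_zero h5, ?_⟩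
      · change 1 / (p.2.1 ^ 2 * p.2.2) ≠ 1
        intro h
        rw [div_eq_one_iff_eq h7] at h
        exact h3 h.symm
      · change p.1 * (1 / (p.2.1 ^ 2 * p.2.2)) + (1 / p.2.1) ^ 2 ≠ 0
        have : p.1 * (1 / (p.2.1 ^ 2 * p.2.2)) + (1 / p.2.1) ^ 2 =
            (p.1 + p.2.2) / (p.2.1 ^ 2 * p.2.2) := by
          field_simp
        rw [this]
        exact div_ne_zero h4 h7
    · rintro a ⟨h1, h2, h3, h4, h5, h6⟩
      refine ⟨⟨⟨div_ne_zero (pow_ne_zero _ h5) h3, h2, ?_, ?_⟩, one_div_ne_zero h5⟩, h1⟩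
      · change (1 / a.2.2) ^ 2 * (a.2.2 ^ 2 / a.2.1) ≠ 1
        have : (1 / a.2.2) ^ 2 * (a.2.2 ^ 2 / a.2.1) = 1 / a.2.1 := by
          field_simp
        rw [this]
        intro h
        rw [div_eq_one_iff_eq h3] at h
        exact h4 h.symm
      · change a.1 + a.2.2 ^ 2 / a.2.1 ≠ 0
        have : a.1 + a.2.2 ^ 2 / a.2.1 = (a.1 * a.2.1 + a.2.2 ^ 2) / a.2.1 := by
          field_simp
        rw [this]
        exact div_ne_zero h6 h3
    · rintro p ⟨⟨⟨h1, h2, h3, h4⟩, h5⟩, h6⟩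
      refine Prod.ext rfl (Prod.ext ?_ ?_)
      · change 1 / (1 / p.2.1) = p.2.1
        exact one_div_one_div _
      · change (1 / p.2.1) ^ 2 / (1 / (p.2.1 ^ 2 * p.2.2)) = p.2.2
        have h5' : p.2.1 ≠ 0 := h5
        have h1' : p.2.2 ≠ 0 := h1
        field_simp
    · rintro a ⟨h1, h2, h3, h4, h5, h6⟩
      refine Prod.ext rfl (Prod.ext ?_ ?_)
      · change 1 / ((1 / a.2.2) ^ 2 * (a.2.2 ^ 2 / a.2.1)) = a.2.1
        field_simp
      · change 1 / (1 / a.2.2) = a.2.2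
        exact one_div_one_div _
  have h := EC.slice X hXo h1 h0
  rw [add_zero] at h
  exact h

theorem EC_MS2 : EC MS2 (-1) := by
  set X : Set (ℂ × ℂ × ℂ) := {y | (y.2.1, y.1, y.2.2) ∈ MS2} with hX
  have hXo : IsOpen X :=
    (isOpen_ne_fun (by fun_prop) (by fun_prop)).and
      ((isOpen_ne_fun (by fun_prop) (by fun_prop)).and
        ((isOpen_ne_fun (by fun_prop) (by fun_prop)).and
          (isOpen_ne_fun (by fun_prop) (by fun_prop))))
  have h0 : EC {b : ℂ × ℂ // ((0 : ℂ), b) ∈ X} 1 := by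
    refine ec_of ecD (fun x => x) (fun x => x) (by fun_prop) (by fun_prop)
      ?_ ?_ (fun _ _ => rfl) fun _ _ => rfl
    · rintro x ⟨h1, h2, h3, h4⟩
      exact ⟨h1, h2, h4⟩
    · rintro x ⟨h1, h2, h4⟩
      refine ⟨h1, h2, ?_, h4⟩
      change (0 : ℂ) ^ 2 * x.2 ≠ 1
      rw [zero_pow two_ne_zero, zero_mul]
      exact zero_ne_one
  have h1 : EC {p : ℂ × ℂ × ℂ // p ∈ X ∧ p.1 ≠ 0} (-2) := by
    refine ec_of EC_MS2' (fun y => (y.2.1, y.1, y.2.2)) (fun y => (y.2.1, y.1, y.2.2)) (by fun_prop)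
      (by fun_prop) ?_ ?_ (fun _ _ => rfl) fun _ _ => rfl
    · rintro x ⟨h1, h2⟩
      exact ⟨h1, h2⟩
    · rintro x ⟨h1, h2⟩
      exact ⟨h1, h2⟩
  have h := EC.slice X hXo h1 h0
  exact ec_of h (fun y => (y.2.1, y.1, y.2.2)) (fun y => (y.2.1, y.1, y.2.2)) (by fun_prop)
      (by fun_prop) (fun _ h => h) (fun _ h => h) (fun _ _ => rfl) fun _ _ => rfl

theorem EC_MS4' : EC {p : ℂ × ℂ × ℂ // p ∈ MS4 ∧ p.1 ≠ 0} (-2) := by
  refine ec_of EC_MT (fun p => (1 / p.2.1, 1 / p.2.2, p.1))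
    (fun a => (a.2.2, 1 / a.1, 1 / a.2.1)) ?_ ?_ ?_ ?_ ?_ ?_
  · refine ContinuousOn.prodMk (ContinuousOn.div (by fun_prop) (by fun_prop) ?_)
        (ContinuousOn.prodMk (ContinuousOn.div (by fun_prop) (by fun_prop) ?_) (by fun_prop))
    · rintro p ⟨⟨h1, h2, h3, h4, h5⟩, h6⟩
      exact h1
    · rintro p ⟨⟨h1, h2, h3, h4, h5⟩, h6⟩
      exact h2
  · refine ContinuousOn.prodMk (by fun_prop)
        (ContinuousOn.prodMk (ContinuousOn.div (by fun_prop) (by fun_prop) ?_)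
          (ContinuousOn.div (by fun_prop) (by fun_prop) ?_))
    · rintro a ⟨h1, h2, h3, h4, h5, h6⟩
      exact h1
    · rintro a ⟨h1, h2, h3, h4, h5, h6⟩
      exact h3
  · rintro p ⟨⟨h1, h2, h3, h4, h5⟩, h6⟩
    refine ⟨one_div_ne_zero h1, ?_, one_div_ne_zero h2, ?_, h6, ?_⟩
    · change 1 / p.2.1 ≠ 1
      intro h
      rw [div_eq_one_iff_eq h1] at h
      exact h3 h.symm
    · change 1 / p.2.2 ≠ 1
      intro h
      rw [div_eq_one_iff_eq h2] at h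
      exact h4 h.symm
    · change 1 / p.2.1 * (1 / p.2.2) + p.1 ^ 2 ≠ 0
      have : 1 / p.2.1 * (1 / p.2.2) + p.1 ^ 2 = (1 + p.1 ^ 2 * p.2.1 * p.2.2) / (p.2.1 * p.2.2) := by
        field_simp
      rw [this]
      exact div_ne_zero h5 (mul_ne_zero h1 h2)
  · rintro a ⟨h1, h2, h3, h4, h5, h6⟩
    refine ⟨⟨one_div_ne_zero h1, one_div_ne_zero h3, ?_, ?_, ?_⟩, h5⟩
    · change 1 / a.1 ≠ 1
      intro h
      rw [div_eq_one_iff_eq h1] at h
      exact h2 h.symm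
    · change 1 / a.2.1 ≠ 1
      intro h
      rw [div_eq_one_iff_eq h3] at h
      exact h4 h.symm
    · change 1 + a.2.2 ^ 2 * (1 / a.1) * (1 / a.2.1) ≠ 0
      have : 1 + a.2.2 ^ 2 * (1 / a.1) * (1 / a.2.1) = (a.1 * a.2.1 + a.2.2 ^ 2) / (a.1 * a.2.1) := by
        field_simp
      rw [this]
      exact div_ne_zero h6 (mul_ne_zero h1 h3)
  · rintro p _
    exact Prod.ext rfl (Prod.ext (one_div_one_div _) (one_div_one_div _))
  · rintro a _
    exact Prod.ext (one_div_one_div _) (Prod.ext (one_div_one_div _) rfl)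

theorem EC_MS4 : EC MS4 (-1) := by
  have hXo : IsOpen MS4 :=
    (isOpen_ne_fun (by fun_prop) (by fun_prop)).and
      ((isOpen_ne_fun (by fun_prop) (by fun_prop)).and
        ((isOpen_ne_fun (by fun_prop) (by fun_prop)).and
          ((isOpen_ne_fun (by fun_prop) (by fun_prop)).and
            (isOpen_ne_fun (by fun_prop) (by fun_prop)))))
  have h0 : EC {b : ℂ × ℂ // ((0 : ℂ), b) ∈ MS4} 1 := by
    have h := pC01 (p2 0 1 zero_ne_one)
    rw [neg_neg] at h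
    refine ec_of h (fun x => x) (fun x => x) (by fun_prop) (by fun_prop)
      ?_ ?_ (fun _ _ => rfl) fun _ _ => rfl
    · rintro x ⟨h1, h2, h3, h4, h5⟩
      exact ⟨⟨h1, h3⟩, h2, h4⟩
    · rintro x ⟨⟨h1, h3⟩, h2, h4⟩
      refine ⟨h1, h2, h3, h4, ?_⟩
      change (1 : ℂ) + 0 ^ 2 * x.1 * x.2 ≠ 0
      rw [zero_pow two_ne_zero, zero_mul, zero_mul, add_zero]
      exact one_ne_zero
  exact EC.slice MS4 hXo EC_MS4' h0

private theorem ecM : EC {z : ℂ // z ≠ 0 ∧ z + 1 ≠ 0} (-1) := by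
  refine ec_of (p2 0 (-1) (by norm_num)) (fun x => x) (fun x => x) (by fun_prop) (by fun_prop)
      ?_ ?_ (fun _ _ => rfl) fun _ _ => rfl
  · rintro x ⟨h1, h2⟩
    exact ⟨h1, fun h => h2 (by rw [h]; norm_num)⟩
  · rintro x ⟨h1, h2⟩
    exact ⟨h1, fun h => h2 (eq_neg_of_add_eq_zero_left h)⟩

theorem EC_MO : EC MO (-1) := by
  refine ec_of (pC ecM) (fun x => (x.2, x.1)) (fun x => (x.2, x.1)) (by fun_prop) (by fun_prop)
      ?_ ?_ (fun _ _ => rfl) fun _ _ => rfl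
  · rintro x ⟨h1, h2⟩
    exact ⟨h1, h2⟩
  · rintro x ⟨h1, h2⟩
    exact ⟨h1, h2⟩

theorem EC_MO' : EC {p : ℂ × ℂ // p ∈ MO ∧ p.2 ≠ 0} 0 := by
  refine ec_of (pCstar ecM) (fun x => (x.2, x.1)) (fun x => (x.2, x.1)) (by fun_prop) (by fun_prop)
      ?_ ?_ (fun _ _ => rfl) fun _ _ => rfl
  · rintro x ⟨⟨h1, h2⟩, h3⟩
    exact ⟨h3, h1, h2⟩
  · rintro x ⟨h3, h1, h2⟩
    exact ⟨⟨h1, h2⟩, h3⟩

end Pool.Agent.HZ
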