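import Pool.Agent.Lib.MP_3c7f5c_ag.DivDefs
import Pool.Agent.Lib.MP_3c7f5c_ag.Hom.EC1
import Pool.Agent.Lib.MP_3c7f5c_ag.Hom.EC2
import Pool.Agent.Lib.MP_3c7f5c_ag.Eul.EcProd
import Pool.Agent.Lib.MP_3c7f5c_ag.Eul.Slice
import Pool.Agent.Lib.MP_3c7f5c_ag.Eul.EcBasic

/-!
# Euler characteristics of the strata, module HZ-EcMT: the torus part
-/

open Set

namespace Pool.Agent.HZ

/-- homeomorphism between subsets given by mutually inverse maps -/
noncomputable def ecmt_homeo {A B : Type} [TopologicalSpace A] [TopologicalSpace B] {S : Set A}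
    {T : Set B} (f : A → B) (g : B → A) (hf : ContinuousOn f S) (hg : ContinuousOn g T)
    (hfS : MapsTo f S T) (hgT : MapsTo g T S) (hl : ∀ x ∈ S, g (f x) = x)
    (hr : ∀ y ∈ T, f (g y) = y) : S ≃ₜ T where
  toFun := hfS.restrict f S T
  invFun := hgT.restrict g T S
  left_inv x := Subtype.ext (hl x x.2)
  right_inv y := Subtype.ext (hr y y.2)
  continuous_toFun := hf.mapsToRestrict hfS
  continuous_invFun := hg.mapsToRestrict hgT

/-- product with the twice punctured plane -/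
theorem ecmt_C01 {B : Type} [MetricSpace B] (T : Set B) {n : ℤ} (h : EC T n) :
    EC {p : ℂ × B | (p.1 ≠ 0 ∧ p.1 ≠ 1) ∧ p.2 ∈ T} (-n) := by
  refine EC.of_homeo ?_ (EC.prod_C01 h)
  exact
    { toFun := fun q => ⟨(q.1.1, q.1.2.1), q.2, q.1.2.2⟩
      invFun := fun p => ⟨(p.1.1, ⟨p.1.2, p.2.2⟩), p.2.1⟩
      left_inv := fun q => rfl
      right_inv := fun p => rfl
      continuous_toFun := by
        refine Continuous.subtype_mk ?_ _
        have h1 : Continuous fun q : {p : ℂ × T // p.1 ≠ 0 ∧ p.1 ≠ 1} => q.1 :=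
          continuous_subtype_val
        exact (continuous_fst.comp h1).prodMk
          (continuous_subtype_val.comp (continuous_snd.comp h1))
      continuous_invFun := by
        refine Continuous.subtype_mk ?_ _
        have h1 : Continuous fun q : {p : ℂ × B | (p.1 ≠ 0 ∧ p.1 ≠ 1) ∧ p.2 ∈ T} => q.1 :=
          continuous_subtype_val
        exact (continuous_fst.comp h1).prodMk
          (Continuous.subtype_mk (continuous_snd.comp h1) _) }

theorem ecmt_star : EC {c : ℂ | c ≠ 0} 0 := by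
  have h := EC.punctured {0}
  rw [Finset.card_singleton, Nat.cast_one, sub_self] at h
  exact EC.of_homeo (Homeomorph.subtype (Homeomorph.refl ℂ) fun x => by simp) h

/-- `b ≠ 0, 1`, `c ≠ 0` -/
theorem ecmt_A : EC {p : ℂ × ℂ | (p.1 ≠ 0 ∧ p.1 ≠ 1) ∧ p.2 ∈ {c : ℂ | c ≠ 0}} 0 := by
  have h := ecmt_C01 _ ecmt_star
  rwa [neg_zero] at h

theorem ecmt_Y2 : EC {p : ℂ × ℂ | p.2 ≠ 0 ∧ p.1 ≠ p.2 ^ 2 ∧ p.1 ≠ 1 + p.2 ^ 2} 0 := by
  refine EC.of_homeo (ecmt_homeo (fun p => (p.1 + p.2 ^ 2, p.2)) (fun p => (p.1 - p.2 ^ 2, p.2))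
    (by fun_prop) (by fun_prop) ?_ ?_ ?_ ?_) ecmt_A
  · rintro ⟨b, c⟩ ⟨⟨h1, h2⟩, h3⟩
    refine ⟨h3, fun h => h1 ?_, fun h => h2 ?_⟩
    · simp only at h ⊢
      linear_combination h
    · simp only at h ⊢
      linear_combination h
  · rintro ⟨t, c⟩ ⟨h1, h2, h3⟩
    refine ⟨⟨fun h => h2 ?_, fun h => h3 ?_⟩, h1⟩
    · simp only at h ⊢
      linear_combination h
    · simp only at h ⊢
      linear_combination h
  · rintro ⟨b, c⟩ _
    simp
  · rintro ⟨b, c⟩ _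
    simp

theorem ecmt_slice1 :
    EC {c : ℂ // ((0 : ℂ), c) ∈ {p : ℂ × ℂ | p.2 ≠ 0 ∧ p.1 ≠ p.2 ^ 2 ∧ p.1 ≠ 1 + p.2 ^ 2}} (-2) := by
  have h := EC.punctured {0, Complex.I, -Complex.I}
  have hI : Complex.I ≠ 0 := Complex.I_ne_zero
  have hcard : ({0, Complex.I, -Complex.I} : Finset ℂ).card = 3 := by
    rw [Finset.card_insert_of_notMem, Finset.card_insert_of_notMem, Finset.card_singleton]
    · rw [Finset.mem_singleton]
      intro h
      exact hI (self_eq_neg.mp h)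
    · rw [Finset.mem_insert, Finset.mem_singleton]
      rintro (h | h)
      · exact hI h.symm
      · exact hI (neg_eq_zero.mp h.symm)
  rw [hcard] at h
  have e : (1 : ℤ) - ((3 : ℕ) : ℤ) = -2 := by norm_num
  rw [e] at h
  refine EC.of_homeo (Homeomorph.subtype (Homeomorph.refl ℂ) fun c => ?_) h
  simp only [Finset.mem_insert, Finset.mem_singleton, Homeomorph.refl_apply, mem_ofPred_eq, id_eq]
  have hfac : 1 + c ^ 2 = (c - Complex.I) * (c + Complex.I) := by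
    linear_combination Complex.I_sq
  constructor
  · intro hc
    push Not at hc
    obtain ⟨h1, h2, h3⟩ := hc
    refine ⟨h1, fun h => pow_ne_zero 2 h1 h.symm, fun h => ?_⟩
    rw [hfac] at h
    rcases mul_eq_zero.mp h.symm with h | h
    · exact h2 (sub_eq_zero.mp h)
    · exact h3 (eq_neg_of_add_eq_zero_left h)
  · rintro ⟨h1, h2, h3⟩ (h | h | h)
    · exact h1 h
    · apply h3
      rw [hfac, h, sub_self, zero_mul]
    · apply h3
      rw [hfac, h]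
      ring

theorem ecmt_open1 : IsOpen {p : ℂ × ℂ | p.2 ≠ 0 ∧ p.1 ≠ p.2 ^ 2 ∧ p.1 ≠ 1 + p.2 ^ 2} := by
  refine IsOpen.inter (isOpen_ne_fun (by fun_prop) (by fun_prop)) (IsOpen.inter
    (isOpen_ne_fun (by fun_prop) (by fun_prop)) (isOpen_ne_fun (by fun_prop) (by fun_prop)))

/-- the set `t ≠ 0` in `Y2` -/
theorem ecmt_X0 : EC {p : ℂ × ℂ // p ∈ {p : ℂ × ℂ | p.2 ≠ 0 ∧ p.1 ≠ p.2 ^ 2 ∧ p.1 ≠ 1 + p.2 ^ 2} ∧
    p.1 ≠ 0} 2 := by
  have h := EC.slice' _ ecmt_open1 ecmt_Y2 ecmt_slice1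
  have e : (0 : ℤ) - -2 = 2 := by norm_num
  rwa [e] at h

/-- the set `X` -/
def ecmtX : Set (ℂ × ℂ × ℂ) := {p | (p.2.1 ≠ 0 ∧ p.2.1 ≠ 1) ∧ p.2.2 ≠ 0 ∧ p.1 ≠ p.2.2 ^ 2 ∧
  p.1 ≠ p.2.1 + p.2.2 ^ 2}

theorem ecmt_openX : IsOpen ecmtX := by
  refine IsOpen.inter (IsOpen.inter (isOpen_ne_fun (by fun_prop) (by fun_prop))
    (isOpen_ne_fun (by fun_prop) (by fun_prop))) (IsOpen.inter
    (isOpen_ne_fun (by fun_prop) (by fun_prop)) (IsOpen.inter
    (isOpen_ne_fun (by fun_prop) (by fun_prop)) (isOpen_ne_fun (by fun_prop) (by fun_prop))))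

theorem ecmt_X : EC ecmtX 0 := by
  have h := ecmt_C01 _ ecmt_A
  rw [neg_zero] at h
  refine EC.of_homeo (ecmt_homeo (fun p => (p.1 * p.2.1 + p.2.2 ^ 2, p.2))
    (fun p => ((p.1 - p.2.2 ^ 2) / p.2.1, p.2)) (by fun_prop) ?_ ?_ ?_ ?_ ?_) h
  · refine ContinuousOn.prodMk (ContinuousOn.div (by fun_prop) (by fun_prop) ?_) (by fun_prop)
    rintro ⟨t, b, c⟩ hp
    exact hp.1.1
  · rintro ⟨a, b, c⟩ ⟨⟨h1, h2⟩, ⟨h3, h4⟩, h5⟩
    refine ⟨⟨h3, h4⟩, h5, fun h => ?_, fun h => ?_⟩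
    · simp only at h h1 h3
      have : a * b = 0 := by linear_combination h
      rcases mul_eq_zero.mp this with h | h
      · exact h1 h
      · exact h3 h
    · simp only at h h2 h3
      have : (a - 1) * b = 0 := by linear_combination h
      rcases mul_eq_zero.mp this with h | h
      · exact h2 (sub_eq_zero.mp h)
      · exact h3 h
  · rintro ⟨t, b, c⟩ ⟨⟨h1, h2⟩, h3, h4, h5⟩
    simp only at h1 h2 h3 h4 h5
    refine ⟨⟨fun h => ?_, fun h => ?_⟩, ⟨h1, h2⟩, h3⟩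
    · simp only at h
      rw [div_eq_zero_iff] at h
      rcases h with h | h
      · exact h4 (sub_eq_zero.mp h)
      · exact h1 h
    · simp only at h
      rw [div_eq_one_iff_eq h1] at h
      exact h5 (by linear_combination h)
  · rintro ⟨a, b, c⟩ ⟨⟨h1, h2⟩, ⟨h3, h4⟩, h5⟩
    simp only at h3
    simp [h3]
  · rintro ⟨t, b, c⟩ ⟨⟨h1, h2⟩, h3, h4, h5⟩
    simp only at h1
    simp [h1]

theorem ecmt_slice2 : EC {q : ℂ × ℂ // ((0 : ℂ), q) ∈ ecmtX} 2 := by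
  refine EC.of_homeo (Homeomorph.symm ?_) ecmt_X0
  refine Homeomorph.subtype
    { toFun := fun p : ℂ × ℂ => (p.1 + p.2 ^ 2, p.2)
      invFun := fun p => (p.1 - p.2 ^ 2, p.2)
      left_inv := fun p => by simp
      right_inv := fun p => by simp
      continuous_toFun := by fun_prop
      continuous_invFun := by fun_prop } ?_
  rintro ⟨b, c⟩
  constructor
  · rintro ⟨⟨h1, h2⟩, h3, h4, h5⟩
    simp only at h1 h2 h3 h4 h5
    refine ⟨⟨h3, fun h => h1 ?_, fun h => h2 ?_⟩, fun h => h5 ?_⟩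
    · have h' : b + c ^ 2 = c ^ 2 := h
      linear_combination h'
    · have h' : b + c ^ 2 = 1 + c ^ 2 := h
      linear_combination h'
    · have h' : b + c ^ 2 = 0 := h
      exact h'.symm
  · rintro ⟨⟨h3, h1, h2⟩, h5⟩
    have h3' : c ≠ 0 := h3
    have h1' : b + c ^ 2 ≠ c ^ 2 := h1
    have h2' : b + c ^ 2 ≠ 1 + c ^ 2 := h2
    have h5' : b + c ^ 2 ≠ 0 := h5
    refine ⟨⟨fun h => h1' ?_, fun h => h2' ?_⟩, h3', fun h => ?_, fun h => h5' h.symm⟩
    · have h' : b = 0 := h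
      rw [h', zero_add]
    · have h' : b = 1 := h
      rw [h']
    · exact pow_ne_zero 2 h3' (Eq.symm h)

theorem EC_MT : EC MT (-2) := by
  have h := EC.slice' _ ecmt_openX ecmt_X ecmt_slice2
  have e : (0 : ℤ) - 2 = -2 := by norm_num
  rw [e] at h
  have h' : EC {p : ℂ × ℂ × ℂ | p ∈ ecmtX ∧ p.1 ≠ 0} (-2) := h
  refine EC.of_homeo (ecmt_homeo (fun p => ((p.1 - p.2.2 ^ 2) / p.2.1, p.2))
    (fun p => (p.1 * p.2.1 + p.2.2 ^ 2, p.2)) ?_ (by fun_prop) ?_ ?_ ?_ ?_) h'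
  · refine ContinuousOn.prodMk (ContinuousOn.div (by fun_prop) (by fun_prop) ?_) (by fun_prop)
    rintro ⟨t, b, c⟩ hp
    exact hp.1.1.1
  · rintro ⟨t, b, c⟩ ⟨⟨⟨h1, h2⟩, h3, h4, h5⟩, h6⟩
    simp only at h1 h2 h3 h4 h5 h6
    refine ⟨fun h => ?_, fun h => ?_, h1, h2, h3, ?_⟩
    · simp only at h
      rw [div_eq_zero_iff] at h
      rcases h with h | h
      · exact h4 (sub_eq_zero.mp h)
      · exact h1 h
    · simp only at h
      rw [div_eq_one_iff_eq h1] at h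
      exact h5 (by linear_combination h)
    · simp only
      rw [div_mul_cancel₀ _ h1, sub_add_cancel]
      exact h6
  · rintro ⟨a, b, c⟩ ⟨h1, h2, h3, h4, h5, h6⟩
    simp only at h1 h2 h3 h4 h5 h6
    refine ⟨⟨⟨h3, h4⟩, h5, fun h => ?_, fun h => ?_⟩, h6⟩
    · simp only at h
      have : a * b = 0 := by linear_combination h
      rcases mul_eq_zero.mp this with h | h
      · exact h1 h
      · exact h3 h
    · simp only at h
      have : (a - 1) * b = 0 := by linear_combination h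
      rcases mul_eq_zero.mp this with h | h
      · exact h2 (sub_eq_zero.mp h)
      · exact h3 h
  · rintro ⟨t, b, c⟩ ⟨⟨⟨h1, h2⟩, h3, h4, h5⟩, h6⟩
    simp only at h1
    simp [h1]
  · rintro ⟨a, b, c⟩ ⟨h1, h2, h3, h4, h5, h6⟩
    simp only at h3
    simp [h3]

end Pool.Agent.HZ
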