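import Pool.Agent.Lib.MP_3c7f5c_ag.Res.Cox1
import Pool.Agent.Lib.MP_3c7f5c_ag.Res.Cox2
import Pool.Agent.Lib.MP_3c7f5c_ag.Res.Top
import Pool.Agent.Lib.MP_3c7f5c_ag.Res.Div1
import Pool.Agent.Lib.MP_3c7f5c_ag.Eul.EcMS
import Pool.Agent.Lib.MP_3c7f5c_ag.Hom.EC1
import Pool.Agent.Lib.MP_3c7f5c_ag.Hom.EC2

/-!
# The Euler characteristic of the stratum `D₁ ∩ D₂`
-/

open Set

namespace Pool.Agent.HZ

/-- the stratum `{D₁, D₂}` in Cox coordinates -/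
def StrA_C (ξ : Fin 11 → ℂ) : Prop :=
  ξ 5 ≠ 0 ∧ ξ 6 ≠ 0 ∧ ξ 7 ≠ 0 ∧ ξ 8 = 0 ∧ ξ 9 = 0 ∧ ξ 10 ≠ 0 ∧
    ξ 0 * ξ 10 - ξ 1 ^ 2 * ξ 5 * ξ 6 ≠ 0 ∧ ξ 3 * ξ 10 - ξ 4 ^ 2 * ξ 5 * ξ 7 ≠ 0 ∧
    ξ 0 * ξ 3 + ξ 2 ^ 2 * ξ 6 * ξ 7 ≠ 0

theorem StrA_eval (ξ : Fin 11 → ℂ) (s : Fin 9) : MvPolynomial.eval ξ (Pcox s) =
    ![ξ 5, ξ 6, ξ 7, ξ 8, ξ 9, ξ 10, ξ 0 * ξ 10 - ξ 1 ^ 2 * ξ 5 * ξ 6,
      ξ 3 * ξ 10 - ξ 4 ^ 2 * ξ 5 * ξ 7, ξ 0 * ξ 3 + ξ 2 ^ 2 * ξ 6 * ξ 7] s := by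
  fin_cases s <;> simp [Pcox]

theorem StrA_mem (k : Fin 25) (z : Fin 5 → ℂ) :
    HF.chart k z ∈ Str {3, 4} ↔ StrA_C (HF.xi k z) := by
  have h : HF.chart k z ∈ Str {3, 4} ↔ ∀ s : Fin 9,
      (![HF.xi k z 5, HF.xi k z 6, HF.xi k z 7, HF.xi k z 8, HF.xi k z 9, HF.xi k z 10,
        HF.xi k z 0 * HF.xi k z 10 - HF.xi k z 1 ^ 2 * HF.xi k z 5 * HF.xi k z 6,
        HF.xi k z 3 * HF.xi k z 10 - HF.xi k z 4 ^ 2 * HF.xi k z 5 * HF.xi k z 7,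
        HF.xi k z 0 * HF.xi k z 3 + HF.xi k z 2 ^ 2 * HF.xi k z 6 * HF.xi k z 7] s = 0 ↔
        s ∈ ({3, 4} : Finset (Fin 9))) := by
    unfold Str
    refine forall_congr' fun s => ?_
    rw [chart_mem_EDiv, eval_eqnD, StrA_eval]
  rw [h]
  constructor
  · intro h
    exact ⟨fun h' => absurd ((h 0).1 h') (by decide), fun h' => absurd ((h 1).1 h') (by decide),
      fun h' => absurd ((h 2).1 h') (by decide), (h 3).2 (by decide), (h 4).2 (by decide),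
      fun h' => absurd ((h 5).1 h') (by decide), fun h' => absurd ((h 6).1 h') (by decide),
      fun h' => absurd ((h 7).1 h') (by decide), fun h' => absurd ((h 8).1 h') (by decide)⟩
  · rintro ⟨h0, h1, h2, h3, h4, h5, h6, h7, h8⟩ s
    fin_cases s
    · exact ⟨fun h => absurd h h0, fun h => absurd h (by decide)⟩
    · exact ⟨fun h => absurd h h1, fun h => absurd h (by decide)⟩
    · exact ⟨fun h => absurd h h2, fun h => absurd h (by decide)⟩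
    · exact ⟨fun _ => by decide, fun _ => h3⟩
    · exact ⟨fun _ => by decide, fun _ => h4⟩
    · exact ⟨fun h => absurd h h5, fun h => absurd h (by decide)⟩
    · exact ⟨fun h => absurd h h6, fun h => absurd h (by decide)⟩
    · exact ⟨fun h => absurd h h7, fun h => absurd h (by decide)⟩
    · exact ⟨fun h => absurd h h8, fun h => absurd h (by decide)⟩

/-! ### Cox coordinates in the four charts -/

theorem StrA_xi8 (z : Fin 5 → ℂ) :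
    HF.xi 8 z = ![z 0, 1, 1, z 1, 1, 1, 1, 1, z 2, z 3, z 4] := by
  funext ρ
  fin_cases ρ
  · exact HF.xi_cone 8 z 0
  · exact HF.xi_other 8 z 1 (by decide)
  · exact HF.xi_other 8 z 2 (by decide)
  · exact HF.xi_cone 8 z 1
  · exact HF.xi_other 8 z 4 (by decide)
  · exact HF.xi_other 8 z 5 (by decide)
  · exact HF.xi_other 8 z 6 (by decide)
  · exact HF.xi_other 8 z 7 (by decide)
  · exact HF.xi_cone 8 z 2
  · exact HF.xi_cone 8 z 3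
  · exact HF.xi_cone 8 z 4

theorem StrA_xi10 (z : Fin 5 → ℂ) :
    HF.xi 10 z = ![z 0, 1, 1, 1, z 1, 1, 1, z 2, z 3, z 4, 1] := by
  funext ρ
  fin_cases ρ
  · exact HF.xi_cone 10 z 0
  · exact HF.xi_other 10 z 1 (by decide)
  · exact HF.xi_other 10 z 2 (by decide)
  · exact HF.xi_other 10 z 3 (by decide)
  · exact HF.xi_cone 10 z 1
  · exact HF.xi_other 10 z 5 (by decide)
  · exact HF.xi_other 10 z 6 (by decide)
  · exact HF.xi_cone 10 z 2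
  · exact HF.xi_cone 10 z 3
  · exact HF.xi_cone 10 z 4
  · exact HF.xi_other 10 z 10 (by decide)

theorem StrA_xi14 (z : Fin 5 → ℂ) :
    HF.xi 14 z = ![1, z 0, 1, z 1, 1, 1, z 2, 1, z 3, z 4, 1] := by
  funext ρ
  fin_cases ρ
  · exact HF.xi_other 14 z 0 (by decide)
  · exact HF.xi_cone 14 z 0
  · exact HF.xi_other 14 z 2 (by decide)
  · exact HF.xi_cone 14 z 1
  · exact HF.xi_other 14 z 4 (by decide)
  · exact HF.xi_other 14 z 5 (by decide)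
  · exact HF.xi_cone 14 z 2
  · exact HF.xi_other 14 z 7 (by decide)
  · exact HF.xi_cone 14 z 3
  · exact HF.xi_cone 14 z 4
  · exact HF.xi_other 14 z 10 (by decide)

theorem StrA_xi23 (z : Fin 5 → ℂ) :
    HF.xi 23 z = ![1, 1, z 0, 1, 1, 1, z 1, z 2, z 3, z 4, 1] := by
  funext ρ
  fin_cases ρ
  · exact HF.xi_other 23 z 0 (by decide)
  · exact HF.xi_other 23 z 1 (by decide)
  · exact HF.xi_cone 23 z 0
  · exact HF.xi_other 23 z 3 (by decide)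
  · exact HF.xi_other 23 z 4 (by decide)
  · exact HF.xi_other 23 z 5 (by decide)
  · exact HF.xi_cone 23 z 1
  · exact HF.xi_cone 23 z 2
  · exact HF.xi_cone 23 z 3
  · exact HF.xi_cone 23 z 4
  · exact HF.xi_other 23 z 10 (by decide)

/-! ### membership in the four charts -/

theorem StrA_adm8 (ξ : Fin 11 → ℂ) : HF.Adm 8 ξ ↔
    ξ 1 ≠ 0 ∧ ξ 2 ≠ 0 ∧ ξ 4 ≠ 0 ∧ ξ 5 ≠ 0 ∧ ξ 6 ≠ 0 ∧ ξ 7 ≠ 0 := by
  constructor
  · intro h
    exact ⟨h 1 (by decide), h 2 (by decide), h 4 (by decide), h 5 (by decide), h 6 (by decide),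
      h 7 (by decide)⟩
  · rintro ⟨h1, h2, h4, h5, h6, h7⟩ ρ hρ
    fin_cases ρ
    · exact absurd rfl (hρ 0)
    · exact h1
    · exact h2
    · exact absurd rfl (hρ 1)
    · exact h4
    · exact h5
    · exact h6
    · exact h7
    · exact absurd rfl (hρ 2)
    · exact absurd rfl (hρ 3)
    · exact absurd rfl (hρ 4)

theorem StrA_adm10 (ξ : Fin 11 → ℂ) : HF.Adm 10 ξ ↔
    ξ 1 ≠ 0 ∧ ξ 2 ≠ 0 ∧ ξ 3 ≠ 0 ∧ ξ 5 ≠ 0 ∧ ξ 6 ≠ 0 ∧ ξ 10 ≠ 0 := by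
  constructor
  · intro h
    exact ⟨h 1 (by decide), h 2 (by decide), h 3 (by decide), h 5 (by decide), h 6 (by decide),
      h 10 (by decide)⟩
  · rintro ⟨h1, h2, h3, h5, h6, h10⟩ ρ hρ
    fin_cases ρ
    · exact absurd rfl (hρ 0)
    · exact h1
    · exact h2
    · exact h3
    · exact absurd rfl (hρ 1)
    · exact h5
    · exact h6
    · exact absurd rfl (hρ 2)
    · exact absurd rfl (hρ 3)
    · exact absurd rfl (hρ 4)
    · exact h10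

theorem StrA_adm14 (ξ : Fin 11 → ℂ) : HF.Adm 14 ξ ↔
    ξ 0 ≠ 0 ∧ ξ 2 ≠ 0 ∧ ξ 4 ≠ 0 ∧ ξ 5 ≠ 0 ∧ ξ 7 ≠ 0 ∧ ξ 10 ≠ 0 := by
  constructor
  · intro h
    exact ⟨h 0 (by decide), h 2 (by decide), h 4 (by decide), h 5 (by decide), h 7 (by decide),
      h 10 (by decide)⟩
  · rintro ⟨h0, h2, h4, h5, h7, h10⟩ ρ hρ
    fin_cases ρ
    · exact h0
    · exact absurd rfl (hρ 0)
    · exact h2
    · exact absurd rfl (hρ 1)
    · exact h4
    · exact h5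
    · exact absurd rfl (hρ 2)
    · exact h7
    · exact absurd rfl (hρ 3)
    · exact absurd rfl (hρ 4)
    · exact h10

theorem StrA_adm23 (ξ : Fin 11 → ℂ) : HF.Adm 23 ξ ↔
    ξ 0 ≠ 0 ∧ ξ 1 ≠ 0 ∧ ξ 3 ≠ 0 ∧ ξ 4 ≠ 0 ∧ ξ 5 ≠ 0 ∧ ξ 10 ≠ 0 := by
  constructor
  · intro h
    exact ⟨h 0 (by decide), h 1 (by decide), h 3 (by decide), h 4 (by decide), h 5 (by decide),
      h 10 (by decide)⟩
  · rintro ⟨h0, h1, h3, h4, h5, h10⟩ ρ hρ
    fin_cases ρ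
    · exact h0
    · exact h1
    · exact absurd rfl (hρ 0)
    · exact h3
    · exact h4
    · exact h5
    · exact absurd rfl (hρ 1)
    · exact absurd rfl (hρ 2)
    · exact absurd rfl (hρ 3)
    · exact absurd rfl (hρ 4)
    · exact h10

/-! ### the four charts cover the stratum -/

theorem StrA_comb : ∀ k : Fin 25, (∃ j, coneD k j = 8) → (∃ j, coneD k j = 9) →
    ((∀ j, coneD k j ≠ 2) ∧ (∀ j, coneD k j ≠ 4)) ∨
    ((∀ j, coneD k j ≠ 1) ∧ (∀ j, coneD k j ≠ 3) ∧ (∀ j, coneD k j ≠ 4)) ∨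
    ((∀ j, coneD k j ≠ 1) ∧ (∀ j, coneD k j ≠ 2) ∧ (∀ j, coneD k j ≠ 3)) ∨
    ((∀ j, coneD k j ≠ 0) ∧ (∀ j, coneD k j ≠ 1) ∧ (∀ j, coneD k j ≠ 4)) := by
  decide +kernel

theorem StrA_cover (y : HF.Y) (hy : y ∈ Str {3, 4}) :
    y ∈ ((range (HF.chart 8) ∪ range (HF.chart 10)) ∪ range (HF.chart 14)) ∪
      range (HF.chart 23) := by
  obtain ⟨k, z, rfl⟩ := HF.chart_cover y
  rw [StrA_mem] at hy
  obtain ⟨h5, h6, h7, h8, h9, h10, p1, p2, pg⟩ := hy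
  have hadm := HF.adm_xi k z
  set ξ := HF.xi k z with hξ
  have key : ∀ ρ, ξ ρ = 0 → ∃ j, coneD k j = ρ := by
    intro ρ h0
    by_contra hcon
    push Not at hcon
    exact hadm ρ hcon h0
  have u8 : ξ 1 ≠ 0 → ξ 2 ≠ 0 → ξ 4 ≠ 0 → HF.chart k z ∈ range (HF.chart 8) := fun a b c =>
    (HF.chart_mem_range k 8 z).2 ((StrA_adm8 ξ).2 ⟨a, b, c, h5, h6, h7⟩)
  have u10 : ξ 1 ≠ 0 → ξ 2 ≠ 0 → ξ 3 ≠ 0 → HF.chart k z ∈ range (HF.chart 10) := fun a b c =>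
    (HF.chart_mem_range k 10 z).2 ((StrA_adm10 ξ).2 ⟨a, b, c, h5, h6, h10⟩)
  have u14 : ξ 0 ≠ 0 → ξ 2 ≠ 0 → ξ 4 ≠ 0 → HF.chart k z ∈ range (HF.chart 14) := fun a b c =>
    (HF.chart_mem_range k 14 z).2 ((StrA_adm14 ξ).2 ⟨a, b, c, h5, h7, h10⟩)
  have u23 : ξ 0 ≠ 0 → ξ 1 ≠ 0 → ξ 3 ≠ 0 → ξ 4 ≠ 0 → HF.chart k z ∈ range (HF.chart 23) :=
    fun a b c d => (HF.chart_mem_range k 23 z).2 ((StrA_adm23 ξ).2 ⟨a, b, c, d, h5, h10⟩)
  rcases StrA_comb k (key 8 h8) (key 9 h9) with ⟨a, b⟩ | ⟨a, b, c⟩ | ⟨a, b, c⟩ | ⟨a, b, c⟩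
  · have a' := hadm 2 a
    have b' := hadm 4 b
    by_cases e : ξ 1 = 0
    · exact Or.inl (Or.inr (u14 (fun e0 => p1 (by rw [e, e0]; ring)) a' b'))
    · exact Or.inl (Or.inl (Or.inl (u8 e a' b')))
  · have a' := hadm 1 a
    have b' := hadm 3 b
    have c' := hadm 4 c
    by_cases e : ξ 2 = 0
    · exact Or.inr (u23 (fun e0 => pg (by rw [e, e0]; ring)) a' b' c')
    · exact Or.inl (Or.inl (Or.inl (u8 a' e c')))
  · exact Or.inl (Or.inl (Or.inr (u10 (hadm 1 a) (hadm 2 b) (hadm 3 c))))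
  · have a' := hadm 0 a
    have b' := hadm 1 b
    have c' := hadm 4 c
    by_cases e : ξ 2 = 0
    · exact Or.inr (u23 a' b' (fun e0 => pg (by rw [e, e0]; ring)) c')
    · exact Or.inl (Or.inl (Or.inl (u8 b' e c')))

/-! ### the parametrisations -/

/-- coordinates `e_x, e_u, D₃` in the chart 8 -/
def StrA_i8 (p : ℂ × ℂ × ℂ) : Fin 5 → ℂ := ![p.1, p.2.1, 0, 0, p.2.2]

/-- coordinates `e_x, e_v, A₂` in the chart 10, `e_w, A₁, A₂` in the chart 23 -/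
def StrA_i10 (p : ℂ × ℂ × ℂ) : Fin 5 → ℂ := ![p.1, p.2.1, p.2.2, 0, 0]

/-- coordinates `e_u, e_y, A₁` in the chart 14 -/
def StrA_i14 (p : ℂ × ℂ × ℂ) : Fin 5 → ℂ := ![p.2.1, p.1, p.2.2, 0, 0]

theorem StrA_emb8 : Topology.IsEmbedding (fun p => HF.chart 8 (StrA_i8 p)) := by
  refine (HF.chart_openEmbedding 8).isEmbedding.comp ?_
  refine Function.LeftInverse.isEmbedding (f := fun z : Fin 5 → ℂ => (z 0, z 1, z 4))
    (fun p => rfl) (by fun_prop) ?_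
  refine continuous_pi fun j => ?_
  fin_cases j
  · exact continuous_fst
  · exact continuous_snd.fst
  · exact continuous_const
  · exact continuous_const
  · exact continuous_snd.snd

theorem StrA_emb10 (k : Fin 25) : Topology.IsEmbedding (fun p => HF.chart k (StrA_i10 p)) := by
  refine (HF.chart_openEmbedding k).isEmbedding.comp ?_
  refine Function.LeftInverse.isEmbedding (f := fun z : Fin 5 → ℂ => (z 0, z 1, z 2))
    (fun p => rfl) (by fun_prop) ?_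
  refine continuous_pi fun j => ?_
  fin_cases j
  · exact continuous_fst
  · exact continuous_snd.fst
  · exact continuous_snd.snd
  · exact continuous_const
  · exact continuous_const

theorem StrA_emb14 : Topology.IsEmbedding (fun p => HF.chart 14 (StrA_i14 p)) := by
  refine (HF.chart_openEmbedding 14).isEmbedding.comp ?_
  refine Function.LeftInverse.isEmbedding (f := fun z : Fin 5 → ℂ => (z 1, z 0, z 2))
    (fun p => rfl) (by fun_prop) ?_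
  refine continuous_pi fun j => ?_
  fin_cases j
  · exact continuous_snd.fst
  · exact continuous_fst
  · exact continuous_snd.snd
  · exact continuous_const
  · exact continuous_const

theorem StrA_C8 (z : Fin 5 → ℂ) : StrA_C (HF.xi 8 z) ↔
    z 2 = 0 ∧ z 3 = 0 ∧ (z 0, z 1, z 4) ∈ MS1 := by
  rw [StrA_xi8]
  simp [StrA_C, MS1, sub_eq_zero]

theorem StrA_C10 (z : Fin 5 → ℂ) : StrA_C (HF.xi 10 z) ↔
    z 3 = 0 ∧ z 4 = 0 ∧ (z 0, z 1, z 2) ∈ MS2 := by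
  rw [StrA_xi10]
  simp only [StrA_C, MS2, mem_ofPred_eq]
  simp [sub_eq_zero, eq_comm (a := (1 : ℂ))]
  tauto

theorem StrA_C14 (z : Fin 5 → ℂ) : StrA_C (HF.xi 14 z) ↔
    z 3 = 0 ∧ z 4 = 0 ∧ (z 1, z 0, z 2) ∈ MS2 := by
  rw [StrA_xi14]
  simp only [StrA_C, MS2, mem_ofPred_eq]
  simp [sub_eq_zero, eq_comm (a := (1 : ℂ))]
  tauto

theorem StrA_C23 (z : Fin 5 → ℂ) : StrA_C (HF.xi 23 z) ↔
    z 3 = 0 ∧ z 4 = 0 ∧ (z 0, z 1, z 2) ∈ MS4 := by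
  rw [StrA_xi23]
  simp only [StrA_C, MS4, mem_ofPred_eq]
  simp [sub_eq_zero, eq_comm (a := (1 : ℂ))]
  tauto

/-! ### the pieces -/

theorem StrA_img8 : Str {3, 4} ∩ range (HF.chart 8) =
    (fun p => HF.chart 8 (StrA_i8 p)) '' MS1 := by
  ext y
  constructor
  · rintro ⟨hS, z, rfl⟩
    rw [StrA_mem, StrA_C8] at hS
    refine ⟨_, hS.2.2, ?_⟩
    show HF.chart 8 _ = HF.chart 8 z
    congr 1
    funext j
    fin_cases j
    · rfl
    · rfl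
    · exact hS.1.symm
    · exact hS.2.1.symm
    · rfl
  · rintro ⟨p, hp, rfl⟩
    refine ⟨?_, mem_range_self _⟩
    rw [StrA_mem, StrA_C8]
    exact ⟨rfl, rfl, hp⟩

theorem StrA_img10 : Str {3, 4} ∩ range (HF.chart 10) =
    (fun p => HF.chart 10 (StrA_i10 p)) '' MS2 := by
  ext y
  constructor
  · rintro ⟨hS, z, rfl⟩
    rw [StrA_mem, StrA_C10] at hS
    refine ⟨_, hS.2.2, ?_⟩
    show HF.chart 10 _ = HF.chart 10 z
    congr 1
    funext j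
    fin_cases j
    · rfl
    · rfl
    · rfl
    · exact hS.1.symm
    · exact hS.2.1.symm
  · rintro ⟨p, hp, rfl⟩
    refine ⟨?_, mem_range_self _⟩
    rw [StrA_mem, StrA_C10]
    exact ⟨rfl, rfl, hp⟩

theorem StrA_img14 : Str {3, 4} ∩ range (HF.chart 14) =
    (fun p => HF.chart 14 (StrA_i14 p)) '' MS2 := by
  ext y
  constructor
  · rintro ⟨hS, z, rfl⟩
    rw [StrA_mem, StrA_C14] at hS
    refine ⟨_, hS.2.2, ?_⟩
    show HF.chart 14 _ = HF.chart 14 z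
    congr 1
    funext j
    fin_cases j
    · rfl
    · rfl
    · rfl
    · exact hS.1.symm
    · exact hS.2.1.symm
  · rintro ⟨p, hp, rfl⟩
    refine ⟨?_, mem_range_self _⟩
    rw [StrA_mem, StrA_C14]
    exact ⟨rfl, rfl, hp⟩

theorem StrA_img23 : Str {3, 4} ∩ range (HF.chart 23) =
    (fun p => HF.chart 23 (StrA_i10 p)) '' MS4 := by
  ext y
  constructor
  · rintro ⟨hS, z, rfl⟩
    rw [StrA_mem, StrA_C23] at hS
    refine ⟨_, hS.2.2, ?_⟩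
    show HF.chart 23 _ = HF.chart 23 z
    congr 1
    funext j
    fin_cases j
    · rfl
    · rfl
    · rfl
    · exact hS.1.symm
    · exact hS.2.1.symm
  · rintro ⟨p, hp, rfl⟩
    refine ⟨?_, mem_range_self _⟩
    rw [StrA_mem, StrA_C23]
    exact ⟨rfl, rfl, hp⟩

theorem StrA_int8 : Str {3, 4} ∩ range (HF.chart 8) ∩ range (HF.chart 10) =
    (fun p => HF.chart 8 (StrA_i8 p)) '' {p | p ∈ MS1 ∧ p.2.1 ≠ 0} := by
  rw [StrA_img8]
  ext y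
  constructor
  · rintro ⟨⟨p, hp, rfl⟩, hr⟩
    rw [HF.chart_mem_range, StrA_adm10, StrA_xi8] at hr
    exact ⟨p, ⟨hp, hr.2.2.1⟩, rfl⟩
  · rintro ⟨p, ⟨hp, hp2⟩, rfl⟩
    refine ⟨⟨p, hp, rfl⟩, ?_⟩
    rw [HF.chart_mem_range, StrA_adm10, StrA_xi8]
    exact ⟨one_ne_zero, one_ne_zero, hp2, one_ne_zero, one_ne_zero, hp.1⟩

theorem StrA_int14 : Str {3, 4} ∩ range (HF.chart 14) ∩
      (range (HF.chart 8) ∪ range (HF.chart 10)) =
    (fun p => HF.chart 14 (StrA_i14 p)) '' {p | p ∈ MS2 ∧ p.2.1 ≠ 0} := by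
  rw [StrA_img14]
  ext y
  constructor
  · rintro ⟨⟨p, hp, rfl⟩, hr | hr⟩
    · rw [HF.chart_mem_range, StrA_adm8, StrA_xi14] at hr
      exact ⟨p, ⟨hp, hr.1⟩, rfl⟩
    · rw [HF.chart_mem_range, StrA_adm10, StrA_xi14] at hr
      exact ⟨p, ⟨hp, hr.1⟩, rfl⟩
  · rintro ⟨p, ⟨hp, hp2⟩, rfl⟩
    refine ⟨⟨p, hp, rfl⟩, Or.inl ?_⟩
    rw [HF.chart_mem_range, StrA_adm8, StrA_xi14]
    exact ⟨hp2, one_ne_zero, one_ne_zero, one_ne_zero, hp.1, one_ne_zero⟩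

theorem StrA_int23 : Str {3, 4} ∩ range (HF.chart 23) ∩
      ((range (HF.chart 8) ∪ range (HF.chart 10)) ∪ range (HF.chart 14)) =
    (fun p => HF.chart 23 (StrA_i10 p)) '' {p | p ∈ MS4 ∧ p.1 ≠ 0} := by
  rw [StrA_img23]
  ext y
  constructor
  · rintro ⟨⟨p, hp, rfl⟩, (hr | hr) | hr⟩
    · rw [HF.chart_mem_range, StrA_adm8, StrA_xi23] at hr
      exact ⟨p, ⟨hp, hr.2.1⟩, rfl⟩
    · rw [HF.chart_mem_range, StrA_adm10, StrA_xi23] at hr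
      exact ⟨p, ⟨hp, hr.2.1⟩, rfl⟩
    · rw [HF.chart_mem_range, StrA_adm14, StrA_xi23] at hr
      exact ⟨p, ⟨hp, hr.2.1⟩, rfl⟩
  · rintro ⟨p, ⟨hp, hp2⟩, rfl⟩
    refine ⟨⟨p, hp, rfl⟩, Or.inl (Or.inl ?_)⟩
    rw [HF.chart_mem_range, StrA_adm8, StrA_xi23]
    exact ⟨one_ne_zero, hp2, one_ne_zero, one_ne_zero, hp.1, hp.2.1⟩

/-! ### Mayer-Vietoris for subsets -/

/-- nested subtypes -/
def StrA_homeo {Y : Type} [TopologicalSpace Y] (T W : Set Y) :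
    ↥(T ∩ W) ≃ₜ ↥(Subtype.val ⁻¹' W : Set ↥T) where
  toFun x := ⟨⟨x.1, x.2.1⟩, x.2.2⟩
  invFun x := ⟨x.1.1, x.1.2, x.2⟩
  left_inv _ := rfl
  right_inv _ := rfl
  continuous_toFun := by fun_prop
  continuous_invFun := by fun_prop

theorem StrA_mv {Y : Type} [TopologicalSpace Y] (S U V : Set Y) (hU : IsOpen U) (hV : IsOpen V)
    {a b c : ℤ} (ha : EC ↥(S ∩ U) a) (hb : EC ↥(S ∩ V) b) (hc : EC ↥(S ∩ V ∩ U) c) :
    EC ↥(S ∩ (U ∪ V)) (a + b - c) := by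
  have e1 : S ∩ U = (S ∩ (U ∪ V)) ∩ U := by
    ext x
    simp only [mem_inter_iff, mem_union]
    tauto
  have e2 : S ∩ V = (S ∩ (U ∪ V)) ∩ V := by
    ext x
    simp only [mem_inter_iff, mem_union]
    tauto
  have e3 : S ∩ V ∩ U = (S ∩ (U ∪ V)) ∩ (U ∩ V) := by
    ext x
    simp only [mem_inter_iff, mem_union]
    tauto
  rw [e3] at hc
  rw [e1] at ha
  rw [e2] at hb
  refine EC.mv (X := ↥(S ∩ (U ∪ V))) (A := Subtype.val ⁻¹' U) (B := Subtype.val ⁻¹' V)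
    (hU.preimage continuous_subtype_val) (hV.preimage continuous_subtype_val) ?_
    (ha.of_homeo (StrA_homeo _ _)) (hb.of_homeo (StrA_homeo _ _)) (hc.of_homeo (StrA_homeo _ _))
  ext x
  exact ⟨fun _ => mem_univ _, fun _ => x.2.2⟩

theorem EC_Str34 : EC (Str {3, 4}) 1 := by
  have o8 := (HF.chart_openEmbedding 8).isOpen_range
  have o10 := (HF.chart_openEmbedding 10).isOpen_range
  have o14 := (HF.chart_openEmbedding 14).isOpen_range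
  have o23 := (HF.chart_openEmbedding 23).isOpen_range
  have a8 : EC ↥(Str {3, 4} ∩ range (HF.chart 8)) (-2) := by
    rw [StrA_img8]
    exact EC_MS1.of_homeo (StrA_emb8.homeomorphImage MS1)
  have a10 : EC ↥(Str {3, 4} ∩ range (HF.chart 10)) (-1) := by
    rw [StrA_img10]
    exact EC_MS2.of_homeo ((StrA_emb10 10).homeomorphImage MS2)
  have a14 : EC ↥(Str {3, 4} ∩ range (HF.chart 14)) (-1) := by
    rw [StrA_img14]
    exact EC_MS2.of_homeo (StrA_emb14.homeomorphImage MS2)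
  have a23 : EC ↥(Str {3, 4} ∩ range (HF.chart 23)) (-1) := by
    rw [StrA_img23]
    exact EC_MS4.of_homeo ((StrA_emb10 23).homeomorphImage MS4)
  have b8 : EC ↥(Str {3, 4} ∩ range (HF.chart 8) ∩ range (HF.chart 10)) (-2) := by
    rw [StrA_int8]
    exact EC_MS1'.of_homeo (StrA_emb8.homeomorphImage {p | p ∈ MS1 ∧ p.2.1 ≠ 0})
  have b14 : EC ↥(Str {3, 4} ∩ range (HF.chart 14) ∩
      (range (HF.chart 8) ∪ range (HF.chart 10))) (-2) := by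
    rw [StrA_int14]
    exact EC_MS2'.of_homeo (StrA_emb14.homeomorphImage {p | p ∈ MS2 ∧ p.2.1 ≠ 0})
  have b23 : EC ↥(Str {3, 4} ∩ range (HF.chart 23) ∩
      ((range (HF.chart 8) ∪ range (HF.chart 10)) ∪ range (HF.chart 14))) (-2) := by
    rw [StrA_int23]
    exact EC_MS4'.of_homeo ((StrA_emb10 23).homeomorphImage {p | p ∈ MS4 ∧ p.1 ≠ 0})
  have c1 : EC ↥(Str {3, 4} ∩ (range (HF.chart 10) ∪ range (HF.chart 8))) (-1 + -2 - -2) :=
    StrA_mv _ _ _ o10 o8 a10 a8 b8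
  rw [union_comm] at c1
  have c2 := StrA_mv _ _ _ (o8.union o10) o14 c1 a14 b14
  have c3 := StrA_mv _ _ _ ((o8.union o10).union o14) o23 c2 a23 b23
  have e : Str {3, 4} ∩ (((range (HF.chart 8) ∪ range (HF.chart 10)) ∪ range (HF.chart 14)) ∪
      range (HF.chart 23)) = Str {3, 4} :=
    inter_eq_left.2 fun y hy => StrA_cover y hy
  rw [e] at c3
  norm_num at c3
  exact c3

end Pool.Agent.HZ
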