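import Pool.Agent.Lib.MP_3c7f5c_ag.Res.Cox1
import Pool.Agent.Lib.MP_3c7f5c_ag.Res.Cox2
import Pool.Agent.Lib.MP_3c7f5c_ag.Res.Top
import Pool.Agent.Lib.MP_3c7f5c_ag.Res.Div1
import Pool.Agent.Lib.MP_3c7f5c_ag.Hom.EC1
import Pool.Agent.Lib.MP_3c7f5c_ag.Hom.EC2
import Pool.Agent.Lib.MP_3c7f5c_ag.Eul.EcMS

/-!
# The Euler characteristic of the stratum `O, D₁, D₂`
-/

open Set Topology

namespace Pool.Agent.HZ

private theorem strB_mem (J : Finset (Fin 9)) (k : Fin 25) (z : Fin 5 → ℂ) :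
    HF.chart k z ∈ Str J ↔ ∀ s, MvPolynomial.eval (HF.xi k z) (Pcox s) = 0 ↔ s ∈ J := by
  unfold Str
  rw [mem_ofPred_eq]
  refine forall_congr' fun s => ?_
  rw [chart_mem_EDiv, eval_eqnD]

private theorem strB_cox (ξ : Fin 11 → ℂ) :
    (∀ s, MvPolynomial.eval ξ (Pcox s) = 0 ↔ s ∈ ({0, 3, 4} : Finset (Fin 9))) ↔
      (ξ 5 = 0 ∧ ξ 8 = 0 ∧ ξ 9 = 0) ∧ (ξ 6 ≠ 0 ∧ ξ 7 ≠ 0 ∧ ξ 10 ≠ 0) ∧ ξ 0 ≠ 0 ∧ ξ 3 ≠ 0 ∧
        ξ 0 * ξ 3 + ξ 2 ^ 2 * ξ 6 * ξ 7 ≠ 0 := by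
  constructor
  · intro h
    have h0 := h 0
    have h1 := h 1
    have h2 := h 2
    have h3 := h 3
    have h4 := h 4
    have h5 := h 5
    have h6 := h 6
    have h7 := h 7
    have h8 := h 8
    simp [Pcox] at h0 h1 h2 h3 h4 h5 h6 h7 h8
    refine ⟨⟨h0, h3, h4⟩, ⟨h1, h2, h5⟩, ?_, ?_, h8⟩
    · intro h9
      apply h6
      rw [h9, h0]
      ring
    · intro h9
      apply h7
      rw [h9, h0]
      ring
  · rintro ⟨⟨h0, h3, h4⟩, ⟨h1, h2, h5⟩, h6, h7, h8⟩ s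
    fin_cases s
    · simpa [Pcox] using h0
    · simpa [Pcox] using h1
    · simpa [Pcox] using h2
    · simpa [Pcox] using h3
    · simpa [Pcox] using h4
    · simpa [Pcox] using h5
    · simp [Pcox, h0, h6, h5]
    · simp [Pcox, h0, h7, h5]
    · simpa [Pcox] using h8

private theorem strB_cone : ∀ k : Fin 25, (∃ j, coneD k j = 5) → (∃ j, coneD k j = 8) →
    (∃ j, coneD k j = 9) → (∀ j, coneD k j ≠ 2) ∧ ((∀ j, coneD k j ≠ 1) ∨ ∀ j, coneD k j ≠ 4) := by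
  decide +kernel

private theorem strB_in {k : Fin 25} {z : Fin 5 → ℂ} {ρ : Fin 11} (h : HF.xi k z ρ = 0) :
    ∃ j, coneD k j = ρ := by
  by_contra hc
  push Not at hc
  rw [HF.xi_other k z ρ hc] at h
  exact one_ne_zero h

private theorem strB_cover (k : Fin 25) (z : Fin 5 → ℂ) (h : HF.chart k z ∈ Str {0, 3, 4}) :
    HF.chart k z ∈ range (HF.chart 9) ∨ HF.chart k z ∈ range (HF.chart 4) := by
  rw [strB_mem, strB_cox] at h
  obtain ⟨⟨h5, h8, h9⟩, ⟨h6, h7, h10⟩, h0, h3, -⟩ := h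
  obtain ⟨c2, c⟩ := strB_cone k (strB_in h5) (strB_in h8) (strB_in h9)
  have h2 : HF.xi k z 2 ≠ 0 := by
    rw [HF.xi_other k z 2 c2]
    exact one_ne_zero
  rw [HF.chart_mem_range, HF.chart_mem_range]
  rcases c with c | c
  · left
    have h1 : HF.xi k z 1 ≠ 0 := by
      rw [HF.xi_other k z 1 c]
      exact one_ne_zero
    intro ρ hρ
    fin_cases ρ
    · exact h0
    · exact h1
    · exact h2
    · exact h3
    · exact absurd rfl (hρ 1)
    · exact absurd rfl (hρ 2)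
    · exact h6
    · exact h7
    · exact absurd rfl (hρ 3)
    · exact absurd rfl (hρ 4)
    · exact h10
  · right
    have h4 : HF.xi k z 4 ≠ 0 := by
      rw [HF.xi_other k z 4 c]
      exact one_ne_zero
    intro ρ hρ
    fin_cases ρ
    · exact h0
    · exact absurd rfl (hρ 1)
    · exact h2
    · exact h3
    · exact h4
    · exact absurd rfl (hρ 2)
    · exact h6
    · exact h7
    · exact absurd rfl (hρ 3)
    · exact absurd rfl (hρ 4)
    · exact h10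

/-- the inclusion of the plane -/
private noncomputable def strB_emb (p : ℂ × ℂ) : Fin 5 → ℂ := ![p.1, p.2, 0, 0, 0]

private theorem strB_isEmb : IsEmbedding strB_emb := by
  refine Function.LeftInverse.isEmbedding (f := fun z : Fin 5 → ℂ => (z 0, z 1)) ?_ ?_ ?_
  · intro p
    rfl
  · fun_prop
  · unfold strB_emb
    refine continuous_pi fun i => ?_
    fin_cases i
    · exact continuous_fst
    · exact continuous_snd
    · exact continuous_const
    · exact continuous_const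
    · exact continuous_const

private theorem strB_9 (z : Fin 5 → ℂ) : HF.chart 9 z ∈ Str {0, 3, 4} ↔
    (z 0, z 1) ∈ MO ∧ z = strB_emb (z 0, z 1) := by
  have e0 : HF.xi 9 z 0 = z 0 := HF.xi_cone 9 z 0
  have e5 : HF.xi 9 z 5 = z 2 := HF.xi_cone 9 z 2
  have e8 : HF.xi 9 z 8 = z 3 := HF.xi_cone 9 z 3
  have e9 : HF.xi 9 z 9 = z 4 := HF.xi_cone 9 z 4
  have e2 : HF.xi 9 z 2 = 1 := HF.xi_other 9 z 2 (by decide)
  have e3 : HF.xi 9 z 3 = 1 := HF.xi_other 9 z 3 (by decide)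
  have e6 : HF.xi 9 z 6 = 1 := HF.xi_other 9 z 6 (by decide)
  have e7 : HF.xi 9 z 7 = 1 := HF.xi_other 9 z 7 (by decide)
  have e10 : HF.xi 9 z 10 = 1 := HF.xi_other 9 z 10 (by decide)
  rw [strB_mem, strB_cox, e0, e2, e3, e5, e6, e7, e8, e9, e10]
  constructor
  · rintro ⟨⟨h2, h3, h4⟩, -, h0, -, h1⟩
    refine ⟨⟨h0, ?_⟩, ?_⟩
    · intro h
      apply h1
      linear_combination h
    · funext i
      fin_cases i
      · rfl
      · rfl
      · exact h2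
      · exact h3
      · exact h4
  · rintro ⟨⟨h0, h1⟩, h⟩
    refine ⟨⟨congrFun h 2, congrFun h 3, congrFun h 4⟩, ⟨one_ne_zero, one_ne_zero, one_ne_zero⟩,
      h0, one_ne_zero, ?_⟩
    intro h2
    apply h1
    change z 0 + 1 = 0
    linear_combination h2

private theorem strB_4 (z : Fin 5 → ℂ) : HF.chart 4 z ∈ Str {0, 3, 4} ↔
    (z 0, z 1) ∈ MO ∧ z = strB_emb (z 0, z 1) := by
  have e0 : HF.xi 4 z 0 = z 0 := HF.xi_cone 4 z 0
  have e5 : HF.xi 4 z 5 = z 2 := HF.xi_cone 4 z 2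
  have e8 : HF.xi 4 z 8 = z 3 := HF.xi_cone 4 z 3
  have e9 : HF.xi 4 z 9 = z 4 := HF.xi_cone 4 z 4
  have e2 : HF.xi 4 z 2 = 1 := HF.xi_other 4 z 2 (by decide)
  have e3 : HF.xi 4 z 3 = 1 := HF.xi_other 4 z 3 (by decide)
  have e6 : HF.xi 4 z 6 = 1 := HF.xi_other 4 z 6 (by decide)
  have e7 : HF.xi 4 z 7 = 1 := HF.xi_other 4 z 7 (by decide)
  have e10 : HF.xi 4 z 10 = 1 := HF.xi_other 4 z 10 (by decide)
  rw [strB_mem, strB_cox, e0, e2, e3, e5, e6, e7, e8, e9, e10]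
  constructor
  · rintro ⟨⟨h2, h3, h4⟩, -, h0, -, h1⟩
    refine ⟨⟨h0, ?_⟩, ?_⟩
    · intro h
      apply h1
      linear_combination h
    · funext i
      fin_cases i
      · rfl
      · rfl
      · exact h2
      · exact h3
      · exact h4
  · rintro ⟨⟨h0, h1⟩, h⟩
    refine ⟨⟨congrFun h 2, congrFun h 3, congrFun h 4⟩, ⟨one_ne_zero, one_ne_zero, one_ne_zero⟩,
      h0, one_ne_zero, ?_⟩
    intro h2
    apply h1
    change z 0 + 1 = 0
    linear_combination h2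

private theorem strB_94 (z : Fin 5 → ℂ) : HF.chart 9 z ∈ range (HF.chart 4) ↔ z 1 ≠ 0 := by
  have e4 : HF.xi 9 z 4 = z 1 := HF.xi_cone 9 z 1
  rw [HF.chart_mem_range]
  constructor
  · intro h
    have h4 := h 4 (by decide)
    rwa [e4] at h4
  · intro h ρ hρ
    have e2 : HF.xi 9 z 2 = 1 := HF.xi_other 9 z 2 (by decide)
    have e3 : HF.xi 9 z 3 = 1 := HF.xi_other 9 z 3 (by decide)
    have e6 : HF.xi 9 z 6 = 1 := HF.xi_other 9 z 6 (by decide)
    have e7 : HF.xi 9 z 7 = 1 := HF.xi_other 9 z 7 (by decide)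
    have e10 : HF.xi 9 z 10 = 1 := HF.xi_other 9 z 10 (by decide)
    fin_cases ρ
    · exact absurd rfl (hρ 0)
    · exact absurd rfl (hρ 1)
    · change HF.xi 9 z 2 ≠ 0
      rw [e2]
      exact one_ne_zero
    · change HF.xi 9 z 3 ≠ 0
      rw [e3]
      exact one_ne_zero
    · change HF.xi 9 z 4 ≠ 0
      rwa [e4]
    · exact absurd rfl (hρ 2)
    · change HF.xi 9 z 6 ≠ 0
      rw [e6]
      exact one_ne_zero
    · change HF.xi 9 z 7 ≠ 0
      rw [e7]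
      exact one_ne_zero
    · exact absurd rfl (hρ 3)
    · exact absurd rfl (hρ 4)
    · change HF.xi 9 z 10 ≠ 0
      rw [e10]
      exact one_ne_zero

/-- Euler characteristic of a piece of the stratum from a model -/
private theorem strB_EC {S : Set (ℂ × ℂ)} {n : ℤ} (h : EC S n) (k : Fin 25)
    (A : Set (Str {0, 3, 4})) (hS : ∀ p ∈ S, HF.chart k (strB_emb p) ∈ Str {0, 3, 4})
    (hA : ∀ y : Str {0, 3, 4}, y ∈ A ↔ ∃ p ∈ S, HF.chart k (strB_emb p) = y.1) : EC A n := by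
  have h1 : IsEmbedding (fun p : S => HF.chart k (strB_emb p.1)) :=
    (HF.chart_openEmbedding k).isEmbedding.comp (strB_isEmb.comp IsEmbedding.subtypeVal)
  have h2 : IsEmbedding (codRestrict (fun p : S => HF.chart k (strB_emb p.1)) (Str {0, 3, 4})
      (fun p => hS p.1 p.2)) := h1.codRestrict _ _
  have h3 : range (codRestrict (fun p : S => HF.chart k (strB_emb p.1)) (Str {0, 3, 4})
      (fun p => hS p.1 p.2)) = A := by
    ext y
    rw [hA]
    constructor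
    · rintro ⟨p, rfl⟩
      exact ⟨p.1, p.2, rfl⟩
    · rintro ⟨p, hp, h4⟩
      exact ⟨⟨p, hp⟩, Subtype.ext h4⟩
  exact EC.of_homeo (h2.toHomeomorph.trans (Homeomorph.setCongr h3)) h

theorem EC_Str034 : EC (Str {0, 3, 4}) (-2) := by
  set A : Set (Str {0, 3, 4}) := {y | y.1 ∈ range (HF.chart 9)} with hA
  set B : Set (Str {0, 3, 4}) := {y | y.1 ∈ range (HF.chart 4)} with hB
  have oA : IsOpen A := (HF.chart_openEmbedding 9).isOpen_range.preimage continuous_subtype_val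
  have oB : IsOpen B := (HF.chart_openEmbedding 4).isOpen_range.preimage continuous_subtype_val
  have hAB : A ∪ B = univ := by
    refine eq_univ_of_forall ?_
    rintro ⟨y, hy⟩
    obtain ⟨k, z, rfl⟩ := HF.chart_cover y
    exact strB_cover k z hy
  have m9 : ∀ p ∈ MO, HF.chart 9 (strB_emb p) ∈ Str {0, 3, 4} := fun p hp =>
    (strB_9 _).mpr ⟨hp, rfl⟩
  have m4 : ∀ p ∈ MO, HF.chart 4 (strB_emb p) ∈ Str {0, 3, 4} := fun p hp =>
    (strB_4 _).mpr ⟨hp, rfl⟩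
  have cA : EC A (-1) := by
    refine strB_EC EC_MO 9 A m9 ?_
    rintro ⟨y, hy⟩
    constructor
    · rintro ⟨z, rfl⟩
      obtain ⟨h1, h2⟩ := (strB_9 z).mp hy
      exact ⟨_, h1, by rw [← h2]⟩
    · rintro ⟨p, -, h1⟩
      exact ⟨_, h1⟩
  have cB : EC B (-1) := by
    refine strB_EC EC_MO 4 B m4 ?_
    rintro ⟨y, hy⟩
    constructor
    · rintro ⟨z, rfl⟩
      obtain ⟨h1, h2⟩ := (strB_4 z).mp hy
      exact ⟨_, h1, by rw [← h2]⟩
    · rintro ⟨p, -, h1⟩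
      exact ⟨_, h1⟩
  have cAB : EC (A ∩ B : Set (Str {0, 3, 4})) 0 := by
    refine strB_EC (S := {p : ℂ × ℂ | p ∈ MO ∧ p.2 ≠ 0}) EC_MO' 9 (A ∩ B)
      (fun p hp => m9 p hp.1) ?_
    rintro ⟨y, hy⟩
    constructor
    · rintro ⟨⟨z, rfl⟩, h3⟩
      obtain ⟨h1, h2⟩ := (strB_9 z).mp hy
      have h4 := (strB_94 z).mp h3
      exact ⟨_, ⟨h1, h4⟩, by rw [← h2]⟩
    · rintro ⟨p, hp, h1⟩
      refine ⟨⟨_, h1⟩, ?_⟩
      change y ∈ range (HF.chart 4)
      change HF.chart 9 (strB_emb p) = y at h1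
      rw [← h1]
      exact (strB_94 _).mpr hp.2
  have h := EC.mv oA oB hAB cA cB cAB
  norm_num at h
  exact h

end Pool.Agent.HZ
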