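import Pool.Agent.Lib.MP_3c7f5c_ag.Res.Main
import Pool.Agent.Lib.MP_3c7f5c_ag.Eul.StrA
import Pool.Agent.Lib.MP_3c7f5c_ag.Eul.StrB

/-!
# The twisted topological zeta function is not a polynomial
-/

set_option autoImplicit false

open Set

namespace Pool.Agent.HZ

private theorem index_iff : ∀ J : Finset (Fin 9), (J.Nonempty ∧ 6 ∣ J.gcd ND) ↔
    J ∈ ({{0}, {3}, {4}, {0, 3}, {0, 4}, {3, 4}, {0, 3, 4}} : Finset (Finset (Fin 9))) := by
  decide +kernel

private noncomputable def term (J : Finset (Fin 9)) : RatFunc ℚ :=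
  ((eulerChar (Str J) : ℤ) : RatFunc ℚ) *
    ∏ i ∈ J, ((ND i : RatFunc ℚ) * RatFunc.X + (nuD i : RatFunc ℚ))⁻¹

private theorem Z_eq : RR.Z 6 =
    ∑ J ∈ ({{0}, {3}, {4}, {0, 3}, {0, 4}, {3, 4}, {0, 3, 4}} : Finset (Finset (Fin 9))),
      term J := by
  unfold LogResolution.Z
  refine Finset.sum_congr ?_ fun J _ => rfl
  ext J
  rw [Finset.mem_filter]
  constructor
  · intro h
    exact (index_iff J).1 h.2
  · intro h
    exact ⟨Finset.mem_univ _, (index_iff J).2 h⟩

theorem Z_nonpoly (P : Polynomial ℚ) : RR.Z 6 ≠ algebraMap (Polynomial ℚ) (RatFunc ℚ) P := by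
  intro h
  rw [Z_eq] at h
  rw [Finset.sum_insert (by decide), Finset.sum_insert (by decide),
    Finset.sum_insert (by decide), Finset.sum_insert (by decide),
    Finset.sum_insert (by decide), Finset.sum_insert (by decide), Finset.sum_singleton] at h
  have hN0 : ND 0 = 6 := rfl
  have hN3 : ND 3 = 6 := rfl
  have hN4 : ND 4 = 6 := rfl
  have hn0 : nuD 0 = 5 := rfl
  have hn3 : nuD 3 = 4 := rfl
  have hn4 : nuD 4 = 4 := rfl
  have e34 : eulerChar (Str {3, 4}) = 1 := EC_Str34.2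
  have e034 : eulerChar (Str {0, 3, 4}) = -2 := EC_Str034.2
  unfold term at h
  rw [Finset.prod_singleton, Finset.prod_singleton, Finset.prod_singleton,
    Finset.prod_insert (show (0 : Fin 9) ∉ ({3} : Finset (Fin 9)) by decide),
    Finset.prod_insert (show (0 : Fin 9) ∉ ({4} : Finset (Fin 9)) by decide),
    Finset.prod_insert (show (0 : Fin 9) ∉ ({3, 4} : Finset (Fin 9)) by decide),
    Finset.prod_insert (show (3 : Fin 9) ∉ ({4} : Finset (Fin 9)) by decide),
    Finset.prod_singleton, Finset.prod_singleton, hN0, hN3, hN4, hn0, hn3, hn4, e34, e034] at h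
  generalize hE0 : eulerChar (Str {0}) = E0 at h
  generalize hE3 : eulerChar (Str {3}) = E3 at h
  generalize hE4 : eulerChar (Str {4}) = E4 at h
  generalize hE03 : eulerChar (Str {0, 3}) = E03 at h
  generalize hE04 : eulerChar (Str {0, 4}) = E04 at h
  have c6 : algebraMap (Polynomial ℚ) (RatFunc ℚ) 6 = 6 := map_ofNat _ 6
  have c4 : algebraMap (Polynomial ℚ) (RatFunc ℚ) 4 = 4 := map_ofNat _ 4
  have c5 : algebraMap (Polynomial ℚ) (RatFunc ℚ) 5 = 5 := map_ofNat _ 5
  have c2 : algebraMap (Polynomial ℚ) (RatFunc ℚ) 2 = 2 := map_ofNat _ 2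
  obtain ⟨U, hU⟩ : ∃ U : Polynomial ℚ, U = 6 * Polynomial.X + 4 := ⟨_, rfl⟩
  obtain ⟨V, hV⟩ : ∃ V : Polynomial ℚ, V = 6 * Polynomial.X + 5 := ⟨_, rfl⟩
  have hu : (((6 : ℕ) : RatFunc ℚ) * RatFunc.X + ((4 : ℕ) : RatFunc ℚ)) =
      algebraMap (Polynomial ℚ) (RatFunc ℚ) U := by
    rw [hU, map_add, map_mul, c6, c4, RatFunc.algebraMap_X]
    push_cast
    rfl
  have hv : (((6 : ℕ) : RatFunc ℚ) * RatFunc.X + ((5 : ℕ) : RatFunc ℚ)) =
      algebraMap (Polynomial ℚ) (RatFunc ℚ) V := by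
    rw [hV, map_add, map_mul, c6, c5, RatFunc.algebraMap_X]
    push_cast
    rfl
  rw [hu, hv] at h
  have eU0 : Polynomial.eval 0 U = 4 := by rw [hU]; simp
  have eV0 : Polynomial.eval 0 V = 5 := by rw [hV]; simp
  have eU : Polynomial.eval (-2 / 3) U = 0 := by rw [hU]; simp; norm_num
  have eV : Polynomial.eval (-2 / 3) V = 1 := by rw [hV]; simp; norm_num
  have hu0 : algebraMap (Polynomial ℚ) (RatFunc ℚ) U ≠ 0 := by
    intro h1
    have h2 := (map_eq_zero_iff _ (IsFractionRing.injective (Polynomial ℚ) (RatFunc ℚ))).1 h1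
    rw [h2, Polynomial.eval_zero] at eU0
    norm_num at eU0
  have hv0 : algebraMap (Polynomial ℚ) (RatFunc ℚ) V ≠ 0 := by
    intro h1
    have h2 := (map_eq_zero_iff _ (IsFractionRing.injective (Polynomial ℚ) (RatFunc ℚ))).1 h1
    rw [h2, Polynomial.eval_zero] at eV0
    norm_num at eV0
  have key : algebraMap (Polynomial ℚ) (RatFunc ℚ) (P * V * U ^ 2) =
      algebraMap (Polynomial ℚ) (RatFunc ℚ)
      ((E0 : Polynomial ℚ) * U ^ 2 + ((E3 : Polynomial ℚ) + (E4 : Polynomial ℚ)) * U * V +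
        ((E03 : Polynomial ℚ) + (E04 : Polynomial ℚ)) * U + V - 2) := by
    rw [map_mul, map_mul, ← h]
    simp only [map_sub, map_add, map_mul, map_intCast, map_pow, c2]
    generalize algebraMap (Polynomial ℚ) (RatFunc ℚ) U = u at *
    generalize algebraMap (Polynomial ℚ) (RatFunc ℚ) V = v at *
    push_cast
    field_simp
    ring
  have key2 := IsFractionRing.injective (Polynomial ℚ) (RatFunc ℚ) key
  have key3 := congrArg (Polynomial.eval (-2 / 3 : ℚ)) key2
  simp only [Polynomial.eval_mul, Polynomial.eval_add, Polynomial.eval_sub, Polynomial.eval_pow,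
    Polynomial.eval_intCast, Polynomial.eval_ofNat, eU, eV] at key3
  norm_num at key3

end Pool.Agent.HZ
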